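import Mathlib

/-!
# Generating machines and iterated dgsm's

Definitions for the problem on logarithmic space generation of words obtained by iterating dgsm-s.
-/

namespace Pool.Agent.H584R2.Dg

/-! ## Generating Turing machines -/

/-- Head movements. -/
inductive Dir
  | left
  | stay
  | right

/-- The new head position on a one-way infinite tape (cells `0, 1, 2, ...`). -/
def Dir.move : Dir → ℕ → ℕ
  | .left, h => h - 1
  | .stay, h => h
  | .right, h => h + 1

/-- A one-way infinite working tape: its cells and the position of its head. -/
structure Tape (Γ : Type) where
  cell : ℕ → Γ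
  head : ℕ

/-- A deterministic Turing machine without input, with a finite control, `k` one-way infinite
working tapes with two-way read/write heads, and a one-way write-only output tape: depending on the
state and the scanned symbols, one step changes the state, overwrites the scanned symbols, moves
the heads, and writes at most one letter on the output tape. -/
structure Machine (k : ℕ) (S : Type) where
  St : Type
  Sym : Type
  finSt : Finite St
  finSym : Finite Sym
  start : St
  blank : Sym
  δ : St → (Fin k → Sym) → St × (Fin k → Sym × Dir) × Option S

variable {k : ℕ} {S : Type}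

/-- A finite word is a prefix of the infinite word `w`. -/
def IsPre (l : List S) (w : ℕ → S) : Prop :=
  ∀ i : ℕ, ∀ h : i < l.length, l[i] = w i

/-- A configuration: state, working tapes, and the contents of the output tape. -/
structure Cfg (M : Machine k S) where
  st : M.St
  tape : Fin k → Tape M.Sym
  out : List S

namespace Machine

/-- The initial configuration: all tapes are empty. -/
def init (M : Machine k S) : Cfg M := ⟨M.start, fun _ => ⟨fun _ => M.blank, 0⟩, []⟩

/-- One step. -/
def step (M : Machine k S) (c : Cfg M) : Cfg M :=
  let r := M.δ c.st (fun i => (c.tape i).cell (c.tape i).head)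
  ⟨r.1, fun i => ⟨Function.update (c.tape i).cell (c.tape i).head (r.2.1 i).1,
    (r.2.1 i).2.move (c.tape i).head⟩, c.out ++ r.2.2.toList⟩

/-- The configuration after `t` steps. -/
def conf (M : Machine k S) (t : ℕ) : Cfg M := M.step^[t] M.init

/-- `M` generates `w`: at every time the output tape holds a prefix of `w`, and every prefix of `w`
is eventually written. -/
def Generates (M : Machine k S) (w : ℕ → S) : Prop :=
  (∀ t, IsPre (M.conf t).out w) ∧ ∀ n, ∃ t, n ≤ (M.conf t).out.length

/-- `T_M(n)`: the first time at which at least `n` letters have been written. -/
noncomputable def T (M : Machine k S) (n : ℕ) : ℕ := sInf {t | n ≤ (M.conf t).out.length}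

/-- `S_M(n) ≤ s`: during the first `T_M(n)` steps, on every working tape all cells from the
`s`-th on are empty, and the heads never leave the first `s` cells. -/
def SpaceLE (M : Machine k S) (n : ℕ) (s : ℝ) : Prop :=
  ∀ t ≤ M.T n, ∀ i, (((M.conf t).tape i).head : ℝ) < s ∧
    ∀ j : ℕ, s ≤ (j : ℝ) → ((M.conf t).tape i).cell j = M.blank

end Machine

/-! ## Deterministic generalised sequential machines -/

/-- A dgsm over the alphabet `S`: finite state set, initial state, next state and output word. -/
structure Dgsm (S : Type) where
  Q : Type
  finQ : Finite Q
  init : Q
  next : Q → S → Q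
  out : Q → S → List S

namespace Dgsm

/-- The output of the dgsm when it reads a word starting in the state `q`. -/
def run (τ : Dgsm S) : τ.Q → List S → List S
  | _, [] => []
  | q, x :: v => τ.out q x ++ τ.run (τ.next q x) v

/-- The map `τ : Σ* → Σ*`. -/
def map (τ : Dgsm S) (v : List S) : List S := τ.run τ.init v

/-- Non-erasing: every emitted word is nonempty. -/
def NonErasing (τ : Dgsm S) : Prop := ∀ q x, τ.out q x ≠ []

/-- `w = lim τ^n(a)`: the letter `a` is a prefix of `τ(a)`, the lengths of the words `τ^n(a)` are
unbounded, and all these words are prefixes of `w`. -/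
def IsLimit (τ : Dgsm S) (a : S) (w : ℕ → S) : Prop :=
  [a] <+: τ.map [a] ∧ (∀ N, ∃ n, N ≤ (τ.map^[n] [a]).length) ∧ ∀ n, IsPre (τ.map^[n] [a]) w

end Dgsm

end Pool.Agent.H584R2.Dg
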