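import Pool.Agent.H584R2.Dg.Level

/-!
# The whole run
-/

namespace Pool.Agent.H584R2.Dg

variable {S : Type}

/-- The `l`-th block of the limit word and the state in which it is read. -/
def bl (τ : Dgsm S) (u : List S) (s₀ : τ.Q) : ℕ → List S × τ.Q
  | 0 => (u, s₀)
  | l + 1 => (τ.run (bl τ u s₀ l).2 (bl τ u s₀ l).1, τ.nexts (bl τ u s₀ l).2 (bl τ u s₀ l).1)

/-- The states of the stages `j + m - 1, ..., j`. -/
def qsOf (τ : Dgsm S) (u : List S) (s₀ : τ.Q) (j : ℕ) : ℕ → List τ.Q
  | 0 => []
  | m + 1 => (bl τ u s₀ (j + m)).2 :: qsOf τ u s₀ j m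

/-- The word `a u_0 ... u_{l-1}`. -/
def Ow (τ : Dgsm S) (a : S) (u : List S) (s₀ : τ.Q) : ℕ → List S
  | 0 => [a]
  | l + 1 => Ow τ a u s₀ l ++ (bl τ u s₀ l).1

section sem

variable {τ : Dgsm S} {a : S} {u : List S} {s₀ : τ.Q} {B : ℕ}

theorem length_qsOf (j m : ℕ) : (qsOf τ u s₀ j m).length = m := by
  induction m with
  | zero => rfl
  | succ m ih => simp [qsOf, ih]

theorem rem_qs (j m : ℕ) :
    rem τ ((qsOf τ u s₀ j m).map (fresh τ B)) (bl τ u s₀ j).1 = (bl τ u s₀ (j + m)).1 := by
  induction m with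
  | zero => rfl
  | succ m ih =>
    simp only [qsOf, List.map_cons, rem, ih]
    simp [fresh, toBuf, bl, ← add_assoc]

theorem nexts_append (v v' : List S) (q : τ.Q) :
    τ.nexts q (v ++ v') = τ.nexts (τ.nexts q v) v' := by
  simp [Dgsm.nexts]

theorem map_Ow (h : τ.out τ.init a = a :: u) (h0 : s₀ = τ.next τ.init a) (l : ℕ) :
    τ.map (Ow τ a u s₀ l) = Ow τ a u s₀ (l + 1) ∧
      τ.nexts τ.init (Ow τ a u s₀ l) = (bl τ u s₀ l).2 := by
  induction l with
  | zero => simp [Ow, Dgsm.map, Dgsm.run, h, bl, Dgsm.nexts, h0]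
  | succ l ih =>
    obtain ⟨h1, h2⟩ := ih
    constructor
    · rw [Ow, Ow]
      simp only [Dgsm.map] at h1 ⊢
      rw [Dgsm.run_append, h1, h2]
      rfl
    · rw [Ow, nexts_append, h2]
      rfl

theorem iter_eq (h : τ.out τ.init a = a :: u) (h0 : s₀ = τ.next τ.init a) (l : ℕ) :
    τ.map^[l] [a] = Ow τ a u s₀ l := by
  induction l with
  | zero => rfl
  | succ l ih => rw [Function.iterate_succ_apply', ih, (map_Ow h h0 l).1]

theorem bl_mono (hne : τ.NonErasing) {l l' : ℕ} (h : l ≤ l') :
    (bl τ u s₀ l).1.length ≤ (bl τ u s₀ l').1.length := by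
  induction l', h using Nat.le_induction with
  | base => exact le_rfl
  | succ l' _ ih => exact ih.trans (Dgsm.length_run hne _ _)

theorem bl_pos (hne : τ.NonErasing) (hu : u ≠ []) (l : ℕ) : 1 ≤ (bl τ u s₀ l).1.length :=
  (List.length_pos_of_ne_nil hu).trans_le (bl_mono (s₀ := s₀) hne (Nat.zero_le l))

theorem length_Ow_succ (l : ℕ) :
    (Ow τ a u s₀ (l + 1)).length = (Ow τ a u s₀ l).length + (bl τ u s₀ l).1.length := by
  simp [Ow]

theorem Ow_mono {l l' : ℕ} (h : l ≤ l') :
    (Ow τ a u s₀ l).length ≤ (Ow τ a u s₀ l').length := by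
  induction l', h using Nat.le_induction with
  | base => exact le_rfl
  | succ l' _ ih => rw [length_Ow_succ]; omega

theorem lt_Ow (hne : τ.NonErasing) (hu : u ≠ []) (l : ℕ) : l < (Ow τ a u s₀ l).length := by
  induction l with
  | zero => simp [Ow]
  | succ l ih =>
    have := bl_pos (s₀ := s₀) hne hu l
    rw [length_Ow_succ]; omega

/-- The quadratic estimate. -/
theorem quad (hne : τ.NonErasing) (hu : u ≠ []) (j : ℕ) : ∀ m : ℕ,
    (∀ i, 1 ≤ i → i < m → i < (bl τ u s₀ (j + i)).1.length) →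
      m ^ 2 + m ≤ 2 * (Ow τ a u s₀ (j + m)).length := by
  intro m
  induction m with
  | zero => intro _; simp
  | succ m ih =>
    intro h
    have h1 := ih (fun i h1 h2 => h i h1 (by omega))
    rw [show j + (m + 1) = (j + m) + 1 by omega, length_Ow_succ]
    rcases Nat.eq_zero_or_pos m with rfl | hm
    · have h2 := bl_pos (s₀ := s₀) hne hu (j + 0)
      have h3 := lt_Ow (a := a) (s₀ := s₀) hne hu (j + 0)
      simp only [zero_add, one_pow]
      omega
    · have h2 := h m hm (by omega)
      nlinarith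

end sem

variable [Finite S] {τ : Dgsm S} {a : S} {u : List S} {s₀ : τ.Q} {B : ℕ}

/-- Start of level `j + m`. -/
def LSl (τ : Dgsm S) (a : S) (u : List S) (s₀ : τ.Q) (B : ℕ) (j m : ℕ)
    (g : List (Sym S τ.Q B)) : Cfg (mach τ a u s₀ B) :=
  LS τ a u s₀ B (bl τ u s₀ j).1 (qsOf τ u s₀ j m) g (Ow τ a u s₀ (j + m))

theorem sp_LSl {s j m : ℕ} {g : List (Sym S τ.Q B)} (h1 : (bl τ u s₀ j).1.length + 1 ≤ s)
    (h2 : m + 1 < s) (h3 : g.length + 1 < s) : Sp s (LSl τ a u s₀ B j m g) := by
  have := length_qsOf (τ := τ) (u := u) (s₀ := s₀) j m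
  refine sp_cf ?_ ?_ ?_
  · constructor <;> simp <;> omega
  · constructor <;> simp <;> omega
  · constructor <;> simp <;> omega

theorem level_step (hne : τ.NonErasing) (hB : ∀ q x, (τ.out q x).length ≤ B) (hu : u ≠ [])
    {s j m : ℕ} {g : List (Sym S τ.Q B)} (hm : 1 ≤ m) (hgl : g.length + 1 = m)
    (hg : ∀ z ∈ g, z ≠ .mark) (hU : (bl τ u s₀ j).1.length + 3 < s) (hs : m + 4 < s) :
    ∃ (t j' m' : ℕ) (g' : List (Sym S τ.Q B)), j' + m' = j + m + 1 ∧ 1 ≤ m' ∧
      g'.length + 1 = m' ∧ (∀ z ∈ g', z ≠ .mark) ∧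
      t ≤ 44 * (m * (bl τ u s₀ (j + m)).1.length) ∧
      ((j' = j ∧ m' = m + 1 ∧ m < (bl τ u s₀ (j + m)).1.length) ∨
        (j' = j + m ∧ m' = 1 ∧ (bl τ u s₀ (j + m)).1.length ≤ m)) ∧
      Run s t (LSl τ a u s₀ B j m g) (LSl τ a u s₀ B j' m' g') ∧
      Sp s (LSl τ a u s₀ B j' m' g') := by
  have hql := length_qsOf (τ := τ) (u := u) (s₀ := s₀) j m
  have hrem := rem_qs (τ := τ) (u := u) (s₀ := s₀) (B := B) j m
  have hUpos := bl_pos (s₀ := s₀) hne hu (j + m)
  have hUmono := bl_mono (u := u) (s₀ := s₀) hne (show j ≤ j + m by omega)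
  set st₀ := (qsOf τ u s₀ j m).map (fresh τ B) with hst₀
  have hst₀l : st₀.length = m := by simp [hst₀, hql]
  obtain ⟨t, ht, st, v, c, ov, L, R, h1, h2, h3, h4, h5, h6⟩ := pulls (a := a) (u := u)
    (s₀ := s₀) (s := s) hne hB hg (by omega) st₀ (bl τ u s₀ j).1 (Ow τ a u s₀ (j + m))
    (by omega) (by omega) _ le_rfl
  rw [hrem] at h2 h5 h6 ht
  rw [List.drop_length] at h2
  rw [List.take_length] at h5 h6
  have hpull := (pull_eq_none_iff hne hB st v).2 h2
  obtain ⟨_, hv, _, hfl⟩ := pull_none hne st v hpull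
  have hcl : c.length + v.length = (bl τ u s₀ j).1.length := by
    have := congrArg List.length h4
    simpa using this
  have h7 := after_pulls (a := a) (u := u) (s₀ := s₀) (s := s) (c := c) (v := v)
    (o := Ow τ a u s₀ (j + m) ++ (bl τ u s₀ (j + m)).1) (ov := ov) hne (by omega) (by omega)
    (h5.W (by simp; omega)) hpull
  -- identify the stages
  have hfst : st.map (·.1) = qsOf τ u s₀ j m := by
    rw [← fl_fst st v, h3, fl_fst, hst₀, List.map_map]
    have : ((fun x : Stage τ B => x.1) ∘ fresh τ B) = id := by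
      funext q; rfl
    rw [this, List.map_id]
  have hmap : st.map (fun c => cellOf (resetC c))
      = (qsOf τ u s₀ j m).map (fun q => cellOf (fresh τ B q)) := by
    rw [← hfst, List.map_map]
    rfl
  have hlast : st.reverse.foldl (fun _ c => c.2.1) s₀ = (bl τ u s₀ (j + m)).2 := by
    obtain ⟨m', rfl⟩ : ∃ m', m = m' + 1 := ⟨m - 1, by omega⟩
    cases st with
    | nil => simp at h1; omega
    | cons c0 st' =>
      rw [foldl_last]
      rw [h3, hst₀] at hfl
      simp only [qsOf, List.map_cons, fl, List.cons.injEq] at hfl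
      have h8 := (Prod.mk.injEq _ _ _ _).mp hfl.1
      rw [← h8.2, rem_qs]
      rfl
  rw [hlast, hmap] at h7
  subst hv
  simp only [List.append_nil] at h4
  simp only [List.length_nil, add_zero] at hcl
  have hcr : c.reverse = (bl τ u s₀ j).1 := h4
  set U := (bl τ u s₀ (j + m)).1 with hUdef
  have hml : m * 1 ≤ m * U.length := Nat.mul_le_mul_left m hUpos
  have hml' : 1 * U.length ≤ m * U.length := Nat.mul_le_mul_right _ hm
  have e1 : U.length * (2 * st₀.length + 3) = 2 * (m * U.length) + 3 * U.length := by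
    rw [hst₀l]; ring
  rw [e1] at ht
  cases ov with
  | true =>
    have h5' := h5
    rcases h5' with ⟨h0, _⟩ | ⟨_, hlt, rfl, T, hT, rfl⟩
    · simp at h0
    simp only [List.length_append, List.length_cons, List.length_nil] at hlt hT
    have h8 := end_ov (τ := τ) (a := a) (u := u) (s₀ := s₀) (B := B) (s := s)
      (q := (bl τ u s₀ (j + m)).2) (qs := qsOf τ u s₀ j m) (c := c) (T := T)
      (o := Ow τ a u s₀ (j + m) ++ U) (by omega) (by omega) (by omega)
    refine ⟨t + (2 * st.length + 2) + (T.length + c.length + 5), j, m + 1,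
      (T.map .ltr).reverse, by omega, by omega, by simp; omega, ?_, by omega,
      .inl ⟨rfl, rfl, by omega⟩, ?_, ?_⟩
    · intro z hz
      rw [List.mem_reverse] at hz
      obtain ⟨y, _, rfl⟩ := List.mem_map.1 hz
      simp
    · have h9 := (h6.trans h7).trans h8
      rw [hcr] at h9
      exact h9
    · exact sp_LSl (by omega) (by omega) (by simp; omega)
  | false =>
    have hUm : U.length ≤ m := by
      rcases h5 with ⟨_, pre, e, e', _⟩ | ⟨h0, _⟩
      · have := congrArg List.length e
        simp only [List.length_append, List.length_cons, List.length_nil] at this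
        omega
      · simp at h0
    obtain ⟨t', ht', h8⟩ := end_ck (τ := τ) (a := a) (u := u) (s₀ := s₀) (B := B) (s := s)
      (q := (bl τ u s₀ (j + m)).2) (qs := qsOf τ u s₀ j m) (c := c)
      (o := Ow τ a u s₀ (j + m) ++ U) hg (by omega) (by omega) (by omega)
      (List.ne_nil_of_length_pos hUpos) (by omega) (by omega) h5
    refine ⟨t + (2 * st.length + 2) + t', j + m, 1, [], by omega, by omega, by simp, by simp,
      by omega, .inr ⟨rfl, rfl, hUm⟩, ?_, ?_⟩
    · exact (h6.trans h7).trans h8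
    · exact sp_LSl (by have := hUm; rw [hUdef] at this; omega) (by omega) (by simp; omega)

/-! ## The initial phase -/

theorem init_loop {s : ℕ} (v : List S) : ∀ (c o : List S), v.length ≤ B →
    c.length + v.length + 1 < s →
    Run s v.length
      (cf τ a u s₀ B (.init (toBuf B v)) (c.map .ltr ++ [.mark]) [] [.mark] [] [.mark] [] o)
      (cf τ a u s₀ B (.init (toBuf B [])) ((v.reverse ++ c).map .ltr ++ [.mark]) [] [.mark] []
        [.mark] [] (o ++ v)) := by
  induction v with
  | nil =>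
    intro c o _ _
    simpa using Run.refl s _
  | cons y v ih =>
    intro c o hv hs
    simp only [List.length_cons] at hv hs
    have h1 := ih (y :: c) (o ++ [y]) (by omega) (by simp; omega)
    refine Run.cons (c' := cf τ a u s₀ B (.init (toBuf B v)) ((y :: c).map .ltr ++ [.mark]) []
      [.mark] [] [.mark] [] (o ++ [y])) (sp_cf ?_ ?_ ?_) ?_ (by simpa using h1)
    · constructor <;> simp <;> omega
    · constructor <;> simp <;> omega
    · constructor <;> simp <;> omega
    · have hval : (toBuf B (y :: v)).1 = y :: v := toBuf_val (by simpa using hv)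
      rw [step_cf (m := ⟨.init (toBuf B v), (.ltr y, .right), (.blank, .stay), (.blank, .stay),
        some y⟩) (hm := by simp only [List.headD_nil, delta, hval])]
      simp [cf, act]

theorem init_run {s : ℕ} (hu : u.length ≤ B) (hs : u.length + 3 < s) :
    Run s (2 * u.length + 4) (mach τ a u s₀ B).init (LSl τ a u s₀ B 0 1 []) := by
  have h0 : (mach τ a u s₀ B).init = cf τ a u s₀ B .start [] [] [] [] [] [] [] := by
    unfold Machine.init cf
    congr 1
    funext i
    fin_cases i <;> simp [rep, mach]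
  have h1 : Run s 1 (mach τ a u s₀ B).init
      (cf τ a u s₀ B (.init (toBuf B u)) [.mark] [] [.mark] [] [.mark] [] [a]) := by
    rw [h0]
    refine Run.one (sp_cf ?_ ?_ ?_) ?_
    · constructor <;> simp <;> omega
    · constructor <;> simp <;> omega
    · constructor <;> simp <;> omega
    · rw [step_cf (hm := rfl)]
      simp [cf, delta, act]
  have h2 := init_loop (τ := τ) (a := a) (u := u) (s₀ := s₀) (B := B) (s := s) u [] [a] hu
    (by simp; omega)
  have h3 : Run s 1
      (cf τ a u s₀ B (.init (toBuf B [])) ((u.reverse ++ []).map .ltr ++ [.mark]) [] [.mark] []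
        [.mark] [] ([a] ++ u))
      (cf τ a u s₀ B .rewA (u.reverse.map .ltr ++ [.mark]) [] [.cell s₀ s₀ (toBuf B []), .mark] []
        [.mark] [] ([a] ++ u)) := by
    refine Run.one (sp_cf ?_ ?_ ?_) ?_
    · constructor <;> simp <;> omega
    · constructor <;> simp <;> omega
    · constructor <;> simp <;> omega
    · have hval : (toBuf B ([] : List S)).1 = [] := toBuf_val (by simp)
      rw [step_cf (m := ⟨.rewA, (.blank, .stay), (.cell s₀ s₀ (toBuf B []), .right),
        (.blank, .stay), none⟩) (hm := by simp only [List.headD_nil, delta, hval])]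
      simp [cf, act]
  have h4 := rewA_run (τ := τ) (a := a) (u := u) (s₀ := s₀) (B := B) (s := s)
    (LP := [.cell s₀ s₀ (toBuf B []), .mark]) (RP := []) (LC := [.mark]) (RC := [])
    (o := [a] ++ u) (by constructor <;> simp <;> omega) (by constructor <;> simp <;> omega)
    (u.reverse.map .ltr) []
    (by
      intro z hz
      obtain ⟨y, _, rfl⟩ := List.mem_map.1 hz
      simp) (by simp) (by constructor <;> simp <;> omega)
  have h5 := ((h1.trans h2).trans h3).trans h4
  have e : 1 + u.length + 1 + ((u.reverse.map Sym.ltr : List (Sym S τ.Q B)).length + 2)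
      = 2 * u.length + 4 := by
    simp; omega
  rw [e] at h5
  simpa [LSl, LS, Mc, bl, qsOf, Ow, cellOf, fresh] using h5

end Pool.Agent.H584R2.Dg
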