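import Pool.Agent.H584R2.Dg.Pull

/-!
# One level
-/

namespace Pool.Agent.H584R2.Dg

variable {S : Type} [Finite S] {τ : Dgsm S} {a : S} {u : List S} {s₀ : τ.Q} {B : ℕ}

/-- Configuration between two pulls. -/
def Mc (τ : Dgsm S) (a : S) (u : List S) (s₀ : τ.Q) (B : ℕ) (ov : Bool) (st : List (Stage τ B))
    (v c : List S) (L R : List (Sym S τ.Q B)) (o : List S) : Cfg (mach τ a u s₀ B) :=
  cf τ a u s₀ B (.down ov) (c.map .ltr ++ [.mark]) (v.map .ltr) (st.map cellOf ++ [.mark]) [] L R o

/-- Configuration at the start of a level. -/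
def LS (τ : Dgsm S) (a : S) (u : List S) (s₀ : τ.Q) (B : ℕ) (V : List S) (qs : List τ.Q)
    (g : List (Sym S τ.Q B)) (o : List S) : Cfg (mach τ a u s₀ B) :=
  Mc τ a u s₀ B false (qs.map (fresh τ B)) V [] (g ++ [.mark]) [] o

theorem rep_pzR (L : List (Sym S τ.Q B)) (st : List (Stage τ B)) :
    rep .blank L (pzR [.blank] st) = rep .blank L (pzR [] st) := by
  cases st <;> simp [pzR]

theorem first_step {s : ℕ} {st : List (Stage τ B)} {LA RA L R : List (Sym S τ.Q B)} {o : List S}
    {ov : Bool} (hP : st.length + 2 < s) (hA : W s LA RA) (hC : W s L R) :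
    Run s 1 (cf τ a u s₀ B (.down ov) LA RA (st.map cellOf ++ [.mark]) [] L R o)
      (cf τ a u s₀ B (.down ov) LA RA (pzL st) (pzR [] st) L R o) := by
  refine Run.one (sp_cf hA ⟨by simp; omega, by simp; omega⟩ hC) ?_
  rw [step_cf (hm := rfl)]
  simp [cf, delta, act_left_pz, rep_pzR]

theorem cycle {s : ℕ} (hB : ∀ q x, (τ.out q x).length ≤ B) {g : List (Sym S τ.Q B)}
    (hg : ∀ z ∈ g, z ≠ .mark) (hs : g.length + 1 < s) {st st' : List (Stage τ B)}
    {v v' c ys o : List S} {y : S} {ov : Bool} {L R : List (Sym S τ.Q B)}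
    (h : pull τ st v = some (y, st', v')) (hP : st.length + 2 < s)
    (hA : c.length + v.length + 1 < s) (hC : CI (g ++ [.mark]) ys ov L R) :
    ∃ t ≤ 2 * st.length + 3, ∃ c' ov' L' R', c'.reverse ++ v' = c.reverse ++ v ∧
      CI (g ++ [.mark]) (ys ++ [y]) ov' L' R' ∧
      Run s t (Mc τ a u s₀ B ov st v c L R o) (Mc τ a u s₀ B ov' st' v' c' L' R' (o ++ [y])) := by
  have hWA : W s (c.map Sym.ltr ++ [.mark] : List (Sym S τ.Q B)) (v.map .ltr) := by
    constructor <;> simp <;> omega
  have hWC : W s L R := hC.W (by simpa using hs)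
  obtain ⟨t, ht, c', hc', hrun⟩ := pull_sim (a := a) (u := u) (s₀ := s₀) (o := o) (ov := ov)
    hWC hB st v y st' v' [] c h (by simpa using hP) hA
  have hl := (pull_some hB st v y st' v' h).2.2
  have hcl : c'.length + v'.length = c.length + v.length := by
    have := congrArg List.length hc'
    simpa using this
  obtain ⟨ov', L', R', hC', hrun'⟩ := up_step (a := a) (u := u) (s₀ := s₀) (o := o) (y := y)
    (s := s) (LA := c'.map .ltr ++ [.mark]) (RA := v'.map .ltr)
    (LP := st'.map cellOf ++ [.mark]) hg (by constructor <;> simp <;> omega)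
    (by simp; omega) hs hC
  exact ⟨1 + t + 1, by omega, c', ov', L', R', hc', hC',
    ((first_step hP hWA hWC).trans hrun).trans hrun'⟩

/-- The first `p` pulls of a level. -/
theorem pulls {s : ℕ} (hne : τ.NonErasing) (hB : ∀ q x, (τ.out q x).length ≤ B)
    {g : List (Sym S τ.Q B)} (hg : ∀ z ∈ g, z ≠ .mark) (hs : g.length + 1 < s)
    (st₀ : List (Stage τ B)) (V o : List S) (hP : st₀.length + 2 < s)
    (hA : V.length + 1 < s) (p : ℕ) (hp : p ≤ (rem τ st₀ V).length) :
    ∃ t ≤ p * (2 * st₀.length + 3), ∃ (st : List (Stage τ B)) (v c : List S) (ov : Bool)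
      (L R : List (Sym S τ.Q B)),
      st.length = st₀.length ∧ rem τ st v = (rem τ st₀ V).drop p ∧ fl τ st v = fl τ st₀ V ∧
      c.reverse ++ v = V ∧ CI (g ++ [.mark]) ((rem τ st₀ V).take p) ov L R ∧
      Run s t (Mc τ a u s₀ B false st₀ V [] (g ++ [.mark]) [] o)
        (Mc τ a u s₀ B ov st v c L R (o ++ (rem τ st₀ V).take p)) := by
  induction p with
  | zero =>
    refine ⟨0, by omega, st₀, V, [], false, g ++ [.mark], [], rfl, by simp, rfl, by simp,
      by simpa using CI.zero _, ?_⟩
    simpa using Run.refl s _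
  | succ p ih =>
    obtain ⟨t, ht, st, v, c, ov, L, R, h1, h2, h3, h4, h5, h6⟩ := ih (by omega)
    have hlt : p < (rem τ st₀ V).length := by omega
    cases hpull : pull τ st v with
    | none =>
      have := (pull_eq_none_iff hne hB st v).1 hpull
      rw [h2] at this
      have := List.drop_eq_nil_iff.1 this
      omega
    | some z =>
      obtain ⟨y, st', v'⟩ := z
      obtain ⟨e1, e2, e3⟩ := pull_some hB st v y st' v' hpull
      have hcl : c.length + v.length = V.length := by
        have := congrArg List.length h4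
        simpa using this
      obtain ⟨t', ht', c', ov', L', R', f1, f2, f3⟩ := cycle (a := a) (u := u) (s₀ := s₀)
        (c := c) (v := v) (o := o ++ (rem τ st₀ V).take p) hB hg hs hpull (by omega) (by omega) h5
      have hdrop : (rem τ st₀ V).drop p = (rem τ st₀ V)[p] :: (rem τ st₀ V).drop (p + 1) :=
        List.drop_eq_getElem_cons hlt
      rw [h2, hdrop] at e1
      have ey : y = (rem τ st₀ V)[p] := (List.cons.inj e1).1.symm
      have htake : (rem τ st₀ V).take (p + 1) = (rem τ st₀ V).take p ++ [y] := by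
        rw [ey, List.take_append_getElem]
      refine ⟨t + t', ?_, st', v', c', ov', L', R', by omega, (List.cons.inj e1).2.symm,
        e2.trans h3, f1.trans h4, by rw [htake]; exact f2, ?_⟩
      · rw [h1] at ht'
        have : (p + 1) * (2 * st₀.length + 3) = p * (2 * st₀.length + 3) + (2 * st₀.length + 3) := by
          ring
        omega
      · rw [htake, ← List.append_assoc]
        exact h6.trans f3

theorem fl_fst (st : List (Stage τ B)) (v : List S) :
    (fl τ st v).map (·.1) = st.map (·.1) := by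
  induction st with
  | nil => rfl
  | cons c st ih => simp [fl, ih]

theorem foldl_last (st : List (Stage τ B)) (c : Stage τ B) (q : τ.Q) :
    (c :: st).reverse.foldl (fun _ c => c.2.1) q = c.2.1 := by
  simp

/-- From the last pull to the state `toTop` at the top of the pipeline. -/
theorem after_pulls {s : ℕ} (hne : τ.NonErasing) {st : List (Stage τ B)} {v c o : List S}
    {ov : Bool} {L R : List (Sym S τ.Q B)} (hP : st.length + 2 < s)
    (hA : c.length + v.length + 1 < s) (hC : W s L R) (hpull : pull τ st v = none) :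
    Run s (2 * st.length + 2) (Mc τ a u s₀ B ov st v c L R o)
      (cf τ a u s₀ B (.toTop ov (st.reverse.foldl (fun _ c => c.2.1) s₀))
        (c.map .ltr ++ [.mark]) [] (st.map (fun c => cellOf (resetC c)) ++ [.mark]) [] L R o) := by
  obtain ⟨_, hv, hb, _⟩ := pull_none hne st v hpull
  subst hv
  have hWA : W s (c.map Sym.ltr ++ [.mark] : List (Sym S τ.Q B)) [] := by
    simp only [List.length_nil] at hA
    constructor <;> simp <;> omega
  have h1 := first_step (a := a) (u := u) (s₀ := s₀) (o := o) (ov := ov) hP hWA hC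
  have h2 := down_end (a := a) (u := u) (s₀ := s₀) (o := o) (ov := ov) hWA hC st [] hb
    (by simp; omega)
  simp only [List.append_nil] at h2
  have h3 := toTop_loop (a := a) (u := u) (s₀ := s₀) (o := o) (ov := ov) hWA hC st.reverse s₀
    [.mark] (by simp; omega)
  have h4 : Run s 1 (cf τ a u s₀ B (.down ov) (c.map .ltr ++ [.mark]) [] []
        (.mark :: (st.map cellOf).reverse) L R o)
      (cf τ a u s₀ B (.toTop ov s₀) (c.map .ltr ++ [.mark]) [] [.mark]
        (st.reverse.map cellOf) L R o) := by
    refine Run.one (sp_cf hWA ⟨by simp; omega, by simp; omega⟩ hC) ?_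
    rw [step_cf (hm := rfl)]
    simp [cf, delta, act]
  have h5 := ((h1.trans h2).trans h4).trans h3
  have e : 1 + st.length + 1 + st.reverse.length = 2 * st.length + 2 := by
    simp; omega
  rw [e] at h5
  simpa [Mc] using h5

/-- End of a level without checkpoint. -/
theorem end_ov {s : ℕ} {q : τ.Q} {qs : List τ.Q} {c o T : List S}
    (hP : qs.length + 3 < s) (hA : c.length + 2 < s) (hT : T.length + 2 < s) :
    Run s (T.length + c.length + 5)
      (cf τ a u s₀ B (.toTop true q) (c.map .ltr ++ [.mark]) []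
        ((qs.map (fun q => cellOf (fresh τ B q))) ++ [.mark]) [] [] (.mark :: T.map .ltr) o)
      (LS τ a u s₀ B c.reverse (q :: qs) ((T.map .ltr).reverse) o) := by
  have hWA : W s (c.map Sym.ltr ++ [.mark] : List (Sym S τ.Q B)) [] := by
    constructor <;> simp <;> omega
  have hWC : W s ([] : List (Sym S τ.Q B)) (.mark :: T.map .ltr) := by
    constructor <;> simp <;> omega
  have hWP : W s (((q :: qs).map (fun q => cellOf (fresh τ B q))) ++ [.mark]) [] := by
    constructor <;> simp <;> omega
  have h1 : Run s 1 (cf τ a u s₀ B (.toTop true q) (c.map .ltr ++ [.mark]) []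
        ((qs.map (fun q => cellOf (fresh τ B q))) ++ [.mark]) [] [] (.mark :: T.map .ltr) o)
      (cf τ a u s₀ B .capR (c.map .ltr ++ [.mark]) []
        (((q :: qs).map (fun q => cellOf (fresh τ B q))) ++ [.mark]) [] []
        (.mark :: T.map .ltr) o) := by
    refine Run.one (sp_cf hWA ⟨by simp; omega, by simp; omega⟩ hWC) ?_
    rw [step_cf (hm := rfl)]
    simp [cf, delta, act, cellOf, fresh]
  have h2 := capR_run (a := a) (u := u) (s₀ := s₀) (o := o) hWA hWP [] (.mark :: T.map .ltr)
    (by
      intro z hz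
      rcases List.mem_cons.1 hz with rfl | hz
      · simp
      · obtain ⟨y, _, rfl⟩ := List.mem_map.1 hz
        simp) (by simp; omega)
  have h3 := rewA_run (a := a) (u := u) (s₀ := s₀) (o := o) (s := s)
    (LC := (Sym.mark :: T.map Sym.ltr).reverse ++ []) (RC := []) hWP
    ⟨by simp; omega, by simp; omega⟩ (c.map .ltr) []
    (by
      intro z hz
      obtain ⟨y, _, rfl⟩ := List.mem_map.1 hz
      simp) (by simp) hWA
  have h4 := (h1.trans h2).trans h3
  have e : 1 + ((Sym.mark :: T.map Sym.ltr : List (Sym S τ.Q B)).length + 1)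
      + ((c.map Sym.ltr : List (Sym S τ.Q B)).length + 2) = T.length + c.length + 5 := by
    simp; omega
  rw [e] at h4
  simpa [LS, Mc, List.map_map, Function.comp_def] using h4

/-- End of a level with a checkpoint. -/
theorem end_ck {s : ℕ} {q : τ.Q} {qs : List τ.Q} {c o : List S} {g : List (Sym S τ.Q B)}
    {U : List S} {L R : List (Sym S τ.Q B)} (hg : ∀ z ∈ g, z ≠ .mark) (hgs : g.length + 3 < s)
    (hP : qs.length + 3 < s) (hA : c.length + 2 < s) (hU0 : U ≠ []) (hcU : c.length ≤ U.length)
    (hUs : U.length + 2 < s) (hC : CI (g ++ [.mark]) U false L R) :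
    ∃ t ≤ 4 * U.length + qs.length + g.length + 16, Run s t
      (cf τ a u s₀ B (.toTop false q) (c.map .ltr ++ [.mark]) []
        ((qs.map (fun q => cellOf (fresh τ B q))) ++ [.mark]) [] L R o)
      (LS τ a u s₀ B U [q] [] o) := by
  have hWA : W s (c.map Sym.ltr ++ [.mark] : List (Sym S τ.Q B)) [] := by
    constructor <;> simp <;> omega
  have hWC : W s L R := hC.W (by simp; omega)
  have hLlen := hC.length
  have hWP : W s ((qs.map (fun q => cellOf (fresh τ B q))) ++ [.mark]) [] := by
    constructor <;> simp <;> omega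
  rcases hC with ⟨_, pre, h1, h2, h3⟩ | ⟨h0, _⟩
  swap
  · simp at h0
  rcases h3 with ⟨h3, _⟩ | ⟨p, h, h3, h4⟩
  · exact absurd h3 hU0
  obtain ⟨y, Y, rfl⟩ : ∃ y Y, U = y :: Y := by
    cases U with
    | nil => exact absurd rfl hU0
    | cons y Y => exact ⟨y, Y, rfl⟩
  subst h4
  -- what remains to the left on tape `C`
  have hL : (h = .mark ∧ L = []) ∨ (h ≠ .mark ∧ ∃ X, L = X ++ [.mark] ∧ (∀ z ∈ X, z ≠ .mark) ∧
      X.length ≤ g.length) := by
    rw [h3] at h1
    cases L using List.reverseRecOn with
    | nil =>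
      left
      refine ⟨?_, rfl⟩
      have := congrArg List.getLast? h1
      simpa using this.symm
    | append_singleton L z =>
      right
      rw [← List.append_assoc] at h1
      obtain ⟨h7, h8⟩ := List.append_inj' h1 (by simp)
      refine ⟨hg h (by rw [h7]; simp), L, ?_, fun z hz => hg z (by rw [h7]; simp [hz]), ?_⟩
      · rw [← h8]
      · rw [h7]; simp; omega
  -- the mark which is written
  obtain ⟨h', hh', hh⟩ : ∃ h' : Sym S τ.Q B, (h' = .mark ∨ h' = .x) ∧
      ((h = .mark ∧ h' = .mark) ∨ (h ≠ .mark ∧ h' = .x)) := by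
    by_cases hm : h = .mark
    · exact ⟨.mark, .inl rfl, .inl ⟨hm, rfl⟩⟩
    · exact ⟨.x, .inr rfl, .inr ⟨hm, rfl⟩⟩
  simp only [List.length_append, List.length_cons, List.length_nil, List.length_map,
    List.length_reverse] at hLlen hUs hcU h2
  have hYl : L.length + Y.length + 2 ≤ g.length + 2 := by omega
  have r1 : Run s 1 (cf τ a u s₀ B (.toTop false q) (c.map .ltr ++ [.mark]) []
        ((qs.map (fun q => cellOf (fresh τ B q))) ++ [.mark]) [] L
        (h :: (y :: Y).reverse.map .ltr) o)
      (cf τ a u s₀ B (.ckR q) (c.map .ltr ++ [.mark]) []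
        ((qs.map (fun q => cellOf (fresh τ B q))) ++ [.mark]) [] (h' :: L)
        ((y :: Y).reverse.map .ltr) o) := by
    refine Run.one (sp_cf hWA hWP hWC) ?_
    rcases hh with ⟨rfl, rfl⟩ | ⟨hm, rfl⟩
    · rw [step_cf (hm := rfl)]
      simp [cf, delta, act]
    · rw [step_cf (m := ⟨.ckR q, (.blank, .stay), (.blank, .stay), (.x, .right), none⟩)
        (hm := by simp only [List.headD_nil, List.headD_cons, delta])]
      simp [cf, act]
  have r2 := ckR_run (a := a) (u := u) (s₀ := s₀) (o := o) (q := q) hWA hWP (h' :: L)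
    ((y :: Y).reverse.map .ltr)
    (by
      intro z hz
      obtain ⟨y, _, rfl⟩ := List.mem_map.1 hz
      simp) (by simp; omega)
  have eC : ((y :: Y).reverse.map Sym.ltr).reverse ++ h' :: L
      = ((y :: Y).map Sym.ltr ++ h' :: L : List (Sym S τ.Q B)) := by
    rw [List.map_reverse, List.reverse_reverse]
  rw [eC] at r2
  have hWC2 : W s ((y :: Y).map Sym.ltr ++ h' :: L : List (Sym S τ.Q B)) [] := by
    constructor <;> simp <;> omega
  have r3 := ckP_run (a := a) (u := u) (s₀ := s₀) (o := o) (q := q) (s := s) (by omega) hWA hWC2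
    (qs.map (fun q => cellOf (fresh τ B q)))
    (by
      intro z hz
      obtain ⟨y, _, rfl⟩ := List.mem_map.1 hz
      simp [cellOf]) (by constructor <;> simp <;> omega)
  have hWP2 : W s ([.cell q q (toBuf B []), .mark] : List (Sym S τ.Q B)) [] := by
    constructor <;> simp <;> omega
  have r4 := ckA_run (a := a) (u := u) (s₀ := s₀) (o := o) hWP2 hWC2 (c.map .ltr) []
    (by
      intro z hz
      obtain ⟨y, _, rfl⟩ := List.mem_map.1 hz
      simp) (by simp) hWA
  rw [List.append_nil] at r4
  have r5 := copy_run (a := a) (u := u) (s₀ := s₀) (o := o) (s := s) (L := L) (h := h') hh' hWP2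
    y Y [.mark] ((c.map .ltr).reverse) (by simp; omega) (by simp; omega) (by omega)
    (by simpa using hcU)
  have hWA2 : W s ((y :: Y).reverse.map Sym.ltr ++ [.mark] : List (Sym S τ.Q B)) [] := by
    constructor <;> simp <;> omega
  have hWC3 : W s ([.mark] : List (Sym S τ.Q B)) [] := by
    constructor <;> simp <;> omega
  -- erasing the rest of tape `C`
  obtain ⟨t6, ht6, r6⟩ : ∃ t ≤ g.length + 2, Run s t
      (cf τ a u s₀ B .erase ((y :: Y).reverse.map .ltr ++ [.mark]) []
        [.cell q q (toBuf B []), .mark] [] L [h'] o)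
      (cf τ a u s₀ B .rewA ((y :: Y).reverse.map .ltr ++ [.mark]) []
        [.cell q q (toBuf B []), .mark] [] [.mark] [] o) := by
    rcases hh with ⟨hm, rfl⟩ | ⟨hm, rfl⟩
    · rcases hL with ⟨_, rfl⟩ | ⟨hm', _⟩
      · exact ⟨1, by omega, erase_end hWA2 hWP2 ⟨by simp; omega, by simp; omega⟩⟩
      · exact absurd hm hm'
    · rcases hL with ⟨hm', _⟩ | ⟨_, X, rfl, hX, hXl⟩
      · exact absurd hm' hm
      · simp only [List.length_append, List.length_cons, List.length_nil] at hLlen hYl
        exact ⟨X.length + 1 + 1, by omega,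
          (erase_loop (a := a) (u := u) (s₀ := s₀) (o := o) hWA2 hWP2 X .x hX (by simp)
            ⟨by simp; omega, by simp; omega⟩).trans
          (erase_end hWA2 hWP2 ⟨by simp; omega, by simp; omega⟩)⟩
  have r7 := rewA_run (a := a) (u := u) (s₀ := s₀) (o := o) hWP2 hWC3
    ((y :: Y).reverse.map .ltr) []
    (by
      intro z hz
      obtain ⟨y, _, rfl⟩ := List.mem_map.1 hz
      simp) (by simp) hWA2
  have r := (((((r1.trans r2).trans r3).trans r4).trans r5).trans r6).trans r7
  refine ⟨_, ?_, by simpa [LS, Mc, cellOf, fresh] using r⟩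
  simp only [List.length_map, List.length_reverse, List.length_cons]
  omega

end Pool.Agent.H584R2.Dg
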