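import Pool.Agent.H584R2.Dg.Tape

/-!
# The machine
-/

namespace Pool.Agent.H584R2.Dg

/-- Words of length at most `B`. -/
abbrev Buf (S : Type) (B : ℕ) := {l : List S // l.length ≤ B}

/-- Truncation to a buffer. -/
def toBuf {S : Type} (B : ℕ) (l : List S) : Buf S B := ⟨l.take B, by simp⟩

theorem toBuf_val {S : Type} {B : ℕ} {l : List S} (h : l.length ≤ B) : (toBuf B l).1 = l := by
  simp [toBuf, h]

inductive Sym (S Q : Type) (B : ℕ)
  | blank
  | mark
  | x
  | ltr (y : S)
  | cell (s q : Q) (b : Buf S B)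

inductive St (S Q : Type) (B : ℕ)
  | start
  | init (b : Buf S B)
  | rewA
  | down (ov : Bool)
  | up (ov : Bool) (y : S)
  | toTop (ov : Bool) (q : Q)
  | capR
  | ckR (q : Q)
  | ckP (q : Q)
  | ckP2 (q : Q)
  | ckA
  | copy
  | erase

instance {S : Type} [Finite S] (B : ℕ) : Finite (Buf S B) :=
  (List.finite_length_le S B).to_subtype

theorem finite_sym {S Q : Type} [Finite S] [Finite Q] (B : ℕ) : Finite (Sym S Q B) := by
  let f : Sym S Q B → Fin 3 ⊕ S ⊕ (Q × Q × Buf S B) := fun z => match z with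
    | .blank => .inl 0
    | .mark => .inl 1
    | .x => .inl 2
    | .ltr y => .inr (.inl y)
    | .cell s q b => .inr (.inr (s, q, b))
  refine Finite.of_injective f ?_
  intro z z' h
  cases z <;> cases z' <;> simp_all [f]

theorem finite_st {S Q : Type} [Finite S] [Finite Q] (B : ℕ) : Finite (St S Q B) := by
  let f : St S Q B → Fin 6 ⊕ Buf S B ⊕ Bool ⊕ (Bool × S) ⊕ (Bool × Q) ⊕ (Fin 3 × Q) :=
    fun z => match z with
    | .start => .inl 0
    | .rewA => .inl 1
    | .capR => .inl 2
    | .ckA => .inl 3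
    | .copy => .inl 4
    | .erase => .inl 5
    | .init b => .inr (.inl b)
    | .down ov => .inr (.inr (.inl ov))
    | .up ov y => .inr (.inr (.inr (.inl (ov, y))))
    | .toTop ov q => .inr (.inr (.inr (.inr (.inl (ov, q)))))
    | .ckR q => .inr (.inr (.inr (.inr (.inr (0, q)))))
    | .ckP q => .inr (.inr (.inr (.inr (.inr (1, q)))))
    | .ckP2 q => .inr (.inr (.inr (.inr (.inr (2, q)))))
  refine Finite.of_injective f ?_
  intro z z' h
  cases z <;> cases z' <;> simp_all [f]

/-- Actions on the three tapes, and output. -/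
structure Move (S Q : Type) (B : ℕ) where
  st : St S Q B
  a : Sym S Q B × Dir
  p : Sym S Q B × Dir
  c : Sym S Q B × Dir
  o : Option S

open Dir

/-- The transition function; `α, π, γ` are the symbols scanned on the tapes `A` (stored word),
`P` (pipeline), `C` (copy of the word being generated). -/
def delta {S : Type} (τ : Dgsm S) (a : S) (u : List S) (s₀ : τ.Q) (B : ℕ) :
    St S τ.Q B → Sym S τ.Q B → Sym S τ.Q B → Sym S τ.Q B → Move S τ.Q B
  | .start, _, _, _ => ⟨.init (toBuf B u), (.mark, right), (.mark, right), (.mark, right), some a⟩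
  | .init b, α, π, γ => match b.1 with
    | [] => ⟨.rewA, (α, stay), (.cell s₀ s₀ (toBuf B []), right), (γ, stay), none⟩
    | y :: r => ⟨.init (toBuf B r), (.ltr y, right), (π, stay), (γ, stay), some y⟩
  | .rewA, α, π, γ => match α with
    | .mark => ⟨.down false, (.mark, right), (π, stay), (γ, stay), none⟩
    | _ => ⟨.rewA, (α, left), (π, stay), (γ, stay), none⟩
  | .down ov, α, π, γ => match π with
    | .cell s q b => match b.1 with
      | [] => ⟨.down ov, (α, stay), (.cell s q b, left), (γ, stay), none⟩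
      | y :: r => ⟨.up ov y, (α, stay), (.cell s q (toBuf B r), right), (γ, stay), none⟩
    | .mark => match α with
      | .ltr y => ⟨.up ov y, (α, right), (.mark, right), (γ, stay), none⟩
      | _ => ⟨.toTop ov s₀, (α, stay), (.mark, right), (γ, stay), none⟩
    | _ => ⟨.down ov, (α, stay), (π, left), (γ, stay), none⟩
  | .up ov y, α, π, γ => match π with
    | .cell s q _ => match τ.out q y with
      | [] => ⟨.up ov y, (α, stay), (π, stay), (γ, stay), none⟩
      | z :: r => ⟨.up ov z, (α, stay), (.cell s (τ.next q y) (toBuf B r), right), (γ, stay), none⟩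
    | _ => match γ with
      | .mark => ⟨.down true, (α, stay), (π, stay), (.mark, stay), some y⟩
      | _ => ⟨.down ov, (α, stay), (π, stay), (.ltr y, left), some y⟩
  | .toTop ov q, α, π, γ => match π with
    | .cell s q' _ => ⟨.toTop ov q', (α, stay), (.cell s s (toBuf B []), right), (γ, stay), none⟩
    | _ => match ov with
      | true => ⟨.capR, (α, stay), (.cell q q (toBuf B []), right), (γ, stay), none⟩
      | false => match γ with
        | .mark => ⟨.ckR q, (α, stay), (π, stay), (.mark, right), none⟩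
        | _ => ⟨.ckR q, (α, stay), (π, stay), (.x, right), none⟩
  | .capR, α, π, γ => match γ with
    | .blank => ⟨.rewA, (α, stay), (π, stay), (.blank, stay), none⟩
    | _ => ⟨.capR, (α, stay), (π, stay), (γ, right), none⟩
  | .ckR q, α, π, γ => match γ with
    | .blank => ⟨.ckP q, (α, stay), (π, stay), (.blank, stay), none⟩
    | _ => ⟨.ckR q, (α, stay), (π, stay), (γ, right), none⟩
  | .ckP q, α, π, γ => match π with
    | .mark => ⟨.ckP2 q, (α, stay), (.mark, right), (γ, stay), none⟩
    | _ => ⟨.ckP q, (α, stay), (.blank, left), (γ, stay), none⟩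
  | .ckP2 q, α, _, γ => ⟨.ckA, (α, stay), (.cell q q (toBuf B []), right), (γ, stay), none⟩
  | .ckA, α, π, γ => match α with
    | .mark => ⟨.copy, (.mark, right), (π, stay), (γ, stay), none⟩
    | _ => ⟨.ckA, (α, left), (π, stay), (γ, stay), none⟩
  | .copy, α, π, γ => match γ with
    | .blank => ⟨.copy, (α, stay), (π, stay), (.blank, left), none⟩
    | .ltr y => ⟨.copy, (.ltr y, right), (π, stay), (.blank, left), none⟩
    | _ => ⟨.erase, (α, stay), (π, stay), (γ, stay), none⟩
  | .erase, α, π, γ => match γ with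
    | .mark => ⟨.rewA, (α, stay), (π, stay), (.mark, right), none⟩
    | _ => ⟨.erase, (α, stay), (π, stay), (.blank, left), none⟩

/-- The generating machine. -/
def mach {S : Type} [Finite S] (τ : Dgsm S) (a : S) (u : List S) (s₀ : τ.Q) (B : ℕ) :
    Machine 3 S where
  St := St S τ.Q B
  Sym := Sym S τ.Q B
  finSt := haveI := τ.finQ; finite_st B
  finSym := haveI := τ.finQ; finite_sym B
  start := .start
  blank := .blank
  δ := fun q z =>
    let m := delta τ a u s₀ B q (z 0) (z 1) (z 2)
    (m.st, ![m.a, m.p, m.c], m.o)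

section

variable {S : Type} [Finite S] {τ : Dgsm S} {a : S} {u : List S} {s₀ : τ.Q} {B : ℕ}

/-- A configuration given by lists. -/
def cf (τ : Dgsm S) (a : S) (u : List S) (s₀ : τ.Q) (B : ℕ) (q : St S τ.Q B)
    (LA RA LP RP LC RC : List (Sym S τ.Q B)) (o : List S) : Cfg (mach τ a u s₀ B) :=
  ⟨q, ![rep (Γ := Sym S τ.Q B) .blank LA RA, rep (Γ := Sym S τ.Q B) .blank LP RP,
    rep (Γ := Sym S τ.Q B) .blank LC RC], o⟩

/-- General step lemma. -/
theorem step_cf (q : St S τ.Q B) (LA RA LP RP LC RC : List (Sym S τ.Q B)) (o : List S)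
    (m : Move S τ.Q B)
    (hm : delta τ a u s₀ B q (RA.headD .blank) (RP.headD .blank) (RC.headD .blank) = m) :
    (mach τ a u s₀ B).step (cf τ a u s₀ B q LA RA LP RP LC RC o)
      = ⟨m.st, ![act (Γ := Sym S τ.Q B) .blank m.a.1 m.a.2 LA RA,
          act (Γ := Sym S τ.Q B) .blank m.p.1 m.p.2 LP RP,
          act (Γ := Sym S τ.Q B) .blank m.c.1 m.c.2 LC RC], o ++ m.o.toList⟩ := by
  subst hm
  unfold Machine.step
  simp only [cf, mach, Matrix.cons_val_zero, Matrix.cons_val_one, Matrix.cons_val_two,
    Matrix.head_cons, Matrix.tail_cons, rep_read]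
  congr 1
  funext i
  fin_cases i
  · exact rep_act _ _ _ _ _
  · exact rep_act _ _ _ _ _
  · exact rep_act _ _ _ _ _

theorem sp_cf {q : St S τ.Q B} {LA RA LP RP LC RC : List (Sym S τ.Q B)} {o : List S} {s : ℕ}
    (hA : LA.length < s ∧ LA.length + RA.length ≤ s)
    (hP : LP.length < s ∧ LP.length + RP.length ≤ s)
    (hC : LC.length < s ∧ LC.length + RC.length ≤ s) :
    Sp s (cf τ a u s₀ B q LA RA LP RP LC RC o) := by
  intro i
  fin_cases i
  · exact within_rep hA.1 hA.2
  · exact within_rep hP.1 hP.2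
  · exact within_rep hC.1 hC.2

end

end Pool.Agent.H584R2.Dg
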