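import Pool.Agent.H584R2.Dg.Final

/-!
# Main theorem
-/

namespace Pool.Agent.H584R2.Dg

section out

variable {k : ℕ} {S : Type} {M : Machine k S}

theorem conf_add (t t' : ℕ) : M.conf (t + t') = M.step^[t'] (M.conf t) := by
  rw [Machine.conf, Machine.conf, add_comm, Function.iterate_add_apply]

theorem step_out (c : Cfg M) : c.out <+: (M.step c).out :=
  ⟨_, rfl⟩

theorem step_out_len (c : Cfg M) : (M.step c).out.length ≤ c.out.length + 1 := by
  simp only [Machine.step, List.length_append]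
  generalize (M.δ c.st fun i => (c.tape i).cell (c.tape i).head).2.2 = o
  cases o <;> simp

theorem iter_out (c : Cfg M) (t : ℕ) : c.out <+: (M.step^[t] c).out := by
  induction t with
  | zero => exact List.prefix_rfl
  | succ t ih =>
    rw [Function.iterate_succ_apply']
    exact ih.trans (step_out _)

theorem out_mono {t t' : ℕ} (h : t ≤ t') : (M.conf t).out <+: (M.conf t').out := by
  obtain ⟨d, rfl⟩ := Nat.exists_eq_add_of_le h
  rw [conf_add]
  exact iter_out _ _

theorem outlen_mono {t t' : ℕ} (h : t ≤ t') : (M.conf t).out.length ≤ (M.conf t').out.length :=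
  (out_mono h).length_le

theorem outlen_le (t : ℕ) : (M.conf t).out.length ≤ t := by
  induction t with
  | zero => simp [Machine.conf, Machine.init]
  | succ t ih =>
    have h : M.conf (t + 1) = M.step (M.conf t) := by
      rw [conf_add]; rfl
    rw [h]
    exact (step_out_len _).trans (by omega)

end out

variable {S : Type} {τ : Dgsm S} {a : S} {u : List S} {s₀ : τ.Q} {B : ℕ}

/-- All blocks `j + i`, `1 ≤ i < m`, have length `> i`. -/
def Ic (τ : Dgsm S) (u : List S) (s₀ : τ.Q) (j m : ℕ) : Prop :=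
  ∀ i, 1 ≤ i → i < m → i < (bl τ u s₀ (j + i)).1.length

/-- `Bd` is a bound for the position `n`. -/
def Good (τ : Dgsm S) (a : S) (u : List S) (s₀ : τ.Q) (n Bd l₀ : ℕ) : Prop :=
  1 ≤ Bd ∧ n ≤ (Ow τ a u s₀ (l₀ + 1)).length ∧
    (n ≤ Bd ^ 2 ∨ l₀ + 1 ≤ Bd ∨ (bl τ u s₀ l₀).1.length ≤ Bd)

/-- The stored block is short. -/
def Jc (τ : Dgsm S) (u : List S) (s₀ : τ.Q) (j : ℕ) : Prop :=
  (bl τ u s₀ j).1.length ≤ u.length ∨
    ∃ j' m', j' + m' = j ∧ (bl τ u s₀ j).1.length ≤ m' ∧ Ic τ u s₀ j' m'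

theorem bound (hne : τ.NonErasing) (hu : u ≠ []) {l j m n Bd l₀ : ℕ} (hl : j + m = l)
    (hI : Ic τ u s₀ j m) (hJ : Jc τ u s₀ j) (hG : Good τ a u s₀ n Bd l₀)
    (hlt : (Ow τ a u s₀ l).length < n) :
    m ≤ 2 * Bd ∧ (bl τ u s₀ j).1.length ≤ 2 * Bd + u.length := by
  obtain ⟨hB1, hn, h⟩ := hG
  have hll : l ≤ l₀ := by
    by_contra hcon
    have := Ow_mono (τ := τ) (a := a) (u := u) (s₀ := s₀) (show l₀ + 1 ≤ l by omega)
    omega
  have q1 := quad (a := a) hne hu j m hI
  rw [hl] at q1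
  rcases h with h | h | h
  · have hm : m ≤ 2 * Bd := by
      by_contra hcon
      push Not at hcon
      nlinarith
    refine ⟨hm, ?_⟩
    rcases hJ with hJ | ⟨j', m', e, h1, h2⟩
    · omega
    · have q2 := quad (a := a) hne hu j' m' h2
      rw [e] at q2
      have h3 := Ow_mono (τ := τ) (a := a) (u := u) (s₀ := s₀) (show j ≤ l by omega)
      have hm' : m' ≤ 2 * Bd := by
        by_contra hcon
        push Not at hcon
        nlinarith
      omega
  · refine ⟨by omega, ?_⟩
    rcases hJ with hJ | ⟨j', m', e, h1, h2⟩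
    · omega
    · omega
  · have h1 := bl_mono (u := u) (s₀ := s₀) hne (show j ≤ l₀ by omega)
    refine ⟨?_, by omega⟩
    by_cases hm : m ≤ 1
    · omega
    · have h2 := hI (m - 1) (by omega) (by omega)
      have h3 := bl_mono (u := u) (s₀ := s₀) hne (show j + (m - 1) ≤ l₀ by omega)
      omega

variable [Finite S]

theorem main (hne : τ.NonErasing) (hB : ∀ q x, (τ.out q x).length ≤ B) (hu : u ≠ [])
    (huB : u.length ≤ B) : ∀ l : ℕ, 1 ≤ l →
    ∃ (t j m : ℕ) (g : List (Sym S τ.Q B)), j + m = l ∧ 1 ≤ m ∧ g.length + 1 = m ∧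
      (∀ z ∈ g, z ≠ .mark) ∧ (mach τ a u s₀ B).conf t = LSl τ a u s₀ B j m g ∧
      Ic τ u s₀ j m ∧ Jc τ u s₀ j ∧
      (∀ n Bd l₀, Good τ a u s₀ n Bd l₀ → ∀ t' ≤ t,
        (t' = 0 ∨ ((mach τ a u s₀ B).conf (t' - 1)).out.length < n) →
        Sp ((u.length + 9) * Bd) ((mach τ a u s₀ B).conf t')) ∧
      (∀ n Bd l₀, Good τ a u s₀ n Bd l₀ → (l = 1 ∨ (Ow τ a u s₀ (l - 1)).length < n) →
        t ≤ (2 * u.length + 92) * Bd * (Ow τ a u s₀ l).length) := by
  intro l hl
  induction l, hl using Nat.le_induction with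
  | base =>
    have h := init_run (τ := τ) (a := a) (s₀ := s₀) huB (show u.length + 3 < u.length + 4 by omega)
    refine ⟨2 * u.length + 4, 0, 1, [], rfl, le_rfl, rfl, by simp, h.1, ?_, .inl le_rfl, ?_, ?_⟩
    · intro i h1 h2
      omega
    · intro n Bd l₀ hG t' ht' _
      have hs : u.length + 4 ≤ (u.length + 9) * Bd := by
        have := hG.1
        nlinarith
      rcases Nat.lt_or_ge t' (2 * u.length + 4) with h1 | h1
      · exact (h.2 t' h1).mono hs
      · obtain rfl : t' = 2 * u.length + 4 := by omega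
        have h2 : (mach τ a u s₀ B).conf (2 * u.length + 4) = LSl τ a u s₀ B 0 1 [] := h.1
        rw [h2]
        have hb : (bl τ u s₀ 0).1.length = u.length := rfl
        exact sp_LSl (by omega) (by omega) (by simp; omega)
    · intro n Bd l₀ hG _
      have h1 := hG.1
      have h2 : (Ow τ a u s₀ 1).length = u.length + 1 := by simp [Ow, bl]
      rw [h2]
      nlinarith [Nat.mul_le_mul_left (2 * u.length + 92) h1,
        Nat.zero_le ((2 * u.length + 92) * Bd * u.length)]
  | succ l hl ih =>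
    obtain ⟨t, j, m, g, e1, e2, e3, e4, e5, hI, hJ, hSP, hTM⟩ := ih
    subst e1
    obtain ⟨t', j', m', g', f1, f2, f3, f4, f5, f6, f7, f8⟩ := level_step (τ := τ) (a := a)
      (u := u) (s₀ := s₀) (B := B) (s := (bl τ u s₀ j).1.length + m + 5) (j := j) (m := m)
      (g := g) hne hB hu e2 e3 e4 (by omega) (by omega)
    refine ⟨t + t', j', m', g', f1, f2, f3, f4, ?_, ?_, ?_, ?_, ?_⟩
    · rw [conf_add, e5, f7.1]
    · rcases f6 with ⟨rfl, rfl, h⟩ | ⟨rfl, rfl, h⟩
      · intro i h1 h2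
        by_cases hi : i < m
        · exact hI i h1 hi
        · obtain rfl : i = m := by omega
          exact h
      · intro i h1 h2
        omega
    · rcases f6 with ⟨rfl, rfl, h⟩ | ⟨rfl, rfl, h⟩
      · exact hJ
      · exact .inr ⟨j, m, rfl, h, hI⟩
    · intro n Bd l₀ hG t'' ht'' hc
      by_cases h1 : t'' ≤ t
      · exact hSP n Bd l₀ hG t'' h1 hc
      · have hlt : (Ow τ a u s₀ (j + m)).length < n := by
          rcases hc with hc | hc
          · omega
          · refine lt_of_le_of_lt ?_ hc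
            have h2 := outlen_mono (M := mach τ a u s₀ B) (show t ≤ t'' - 1 by omega)
            rw [e5] at h2
            exact h2
        obtain ⟨b1, b2⟩ := bound hne hu rfl hI hJ hG hlt
        have hs : (bl τ u s₀ j).1.length + m + 5 ≤ (u.length + 9) * Bd := by
          have := hG.1
          nlinarith
        obtain ⟨i, rfl⟩ : ∃ i, t'' = t + i := ⟨t'' - t, by omega⟩
        rw [conf_add, e5]
        rcases Nat.lt_or_ge i t' with h2 | h2
        · exact (f7.2 i h2).mono hs
        · obtain rfl : i = t' := by omega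
          rw [f7.1]
          exact f8.mono hs
    · intro n Bd l₀ hG hc
      have hlt : (Ow τ a u s₀ (j + m)).length < n := by
        rcases hc with hc | hc
        · omega
        · simpa using hc
      obtain ⟨b1, _⟩ := bound hne hu rfl hI hJ hG hlt
      have h1 := hTM n Bd l₀ hG (.inr (lt_of_le_of_lt
        (Ow_mono (τ := τ) (a := a) (u := u) (s₀ := s₀) (show j + m - 1 ≤ j + m by omega)) hlt))
      rw [length_Ow_succ]
      have h2 : m * (bl τ u s₀ (j + m)).1.length ≤ 2 * Bd * (bl τ u s₀ (j + m)).1.length :=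
        Nat.mul_le_mul_right _ b1
      have h3 : (2 * u.length + 92) * Bd * ((Ow τ a u s₀ (j + m)).length
          + (bl τ u s₀ (j + m)).1.length) = (2 * u.length + 92) * Bd
            * (Ow τ a u s₀ (j + m)).length + 2 * u.length * Bd * (bl τ u s₀ (j + m)).1.length
            + 92 * (Bd * (bl τ u s₀ (j + m)).1.length) := by ring
      rw [h3]
      have h4 : 2 * Bd * (bl τ u s₀ (j + m)).1.length
          = 2 * (Bd * (bl τ u s₀ (j + m)).1.length) := by ring
      rw [h4] at h2
      have h5 := Nat.zero_le (2 * u.length * Bd * (bl τ u s₀ (j + m)).1.length)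
      omega

/-- Time bound. -/
theorem T_le (hne : τ.NonErasing) (hB : ∀ q x, (τ.out q x).length ≤ B) (hu : u ≠ [])
    (huB : u.length ≤ B) {n Bd l₀ : ℕ} (hn : 1 ≤ n) (hG : Good τ a u s₀ n Bd l₀) :
    (mach τ a u s₀ B).T n ≤ (2 * u.length + 92) * Bd * n := by
  have hT : ∀ t, n ≤ ((mach τ a u s₀ B).conf t).out.length → (mach τ a u s₀ B).T n ≤ t :=
    fun t ht => Nat.sInf_le ht
  have hB1 := hG.1
  have hprod : (2 * u.length + 92) * 1 * 1 ≤ (2 * u.length + 92) * Bd * n :=
    Nat.mul_le_mul (Nat.mul_le_mul_left _ hB1) hn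
  by_cases hsmall : n ≤ (Ow τ a u s₀ 1).length
  · have h := init_run (τ := τ) (a := a) (s₀ := s₀) huB (show u.length + 3 < u.length + 4 by omega)
    have h2 : (mach τ a u s₀ B).conf (2 * u.length + 4) = LSl τ a u s₀ B 0 1 [] := h.1
    have := hT (2 * u.length + 4) (by rw [h2]; exact hsmall)
    omega
  · have hex : ∃ l, n ≤ (Ow τ a u s₀ l).length := ⟨n, (lt_Ow hne hu n).le⟩
    classical
    obtain ⟨l, hl1, hl2, hl3⟩ : ∃ l, 1 ≤ l ∧ (Ow τ a u s₀ l).length < n ∧
        n ≤ (Ow τ a u s₀ (l + 1)).length := by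
      have h1 := Nat.find_spec hex
      have h2 : 2 ≤ Nat.find hex := by
        by_contra hcon
        have h3 := Ow_mono (τ := τ) (a := a) (u := u) (s₀ := s₀)
          (show Nat.find hex ≤ 1 by omega)
        omega
      refine ⟨Nat.find hex - 1, by omega, ?_, ?_⟩
      · have := Nat.find_min hex (show Nat.find hex - 1 < Nat.find hex by omega)
        omega
      · rw [show Nat.find hex - 1 + 1 = Nat.find hex by omega]
        exact h1
    obtain ⟨t, j, m, g, e1, e2, e3, e4, e5, hI, hJ, _, hTM⟩ := main (a := a) (s₀ := s₀) hne hB hu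
      huB l hl1
    subst e1
    obtain ⟨b1, _⟩ := bound hne hu rfl hI hJ hG hl2
    have h1 := hTM n Bd l₀ hG (.inr (lt_of_le_of_lt
        (Ow_mono (τ := τ) (a := a) (u := u) (s₀ := s₀) (show j + m - 1 ≤ j + m by omega)) hl2))
    have hql := length_qsOf (τ := τ) (u := u) (s₀ := s₀) j m
    have hrem := rem_qs (τ := τ) (u := u) (s₀ := s₀) (B := B) j m
    rw [length_Ow_succ] at hl3
    set p := n - (Ow τ a u s₀ (j + m)).length with hp
    obtain ⟨t', ht', st, v, c, ov, L, R, h1', _, _, _, _, h6⟩ := pulls (a := a) (u := u)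
      (s₀ := s₀) (s := (bl τ u s₀ j).1.length + m + 5) hne hB e4 (by omega)
      ((qsOf τ u s₀ j m).map (fresh τ B)) (bl τ u s₀ j).1 (Ow τ a u s₀ (j + m))
      (by simp; omega) (by omega) p (by rw [hrem]; omega)
    have h7 : ((mach τ a u s₀ B).conf (t + t')).out.length = n := by
      rw [conf_add, e5]
      have h8 := h6.1
      rw [hrem] at h8
      have h9 : (mach τ a u s₀ B).step^[t'] (LSl τ a u s₀ B j m g)
        = Mc τ a u s₀ B ov st v c L R (Ow τ a u s₀ (j + m) ++ (bl τ u s₀ (j + m)).1.take p) := h8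
      rw [h9]
      simp only [Mc, cf, List.length_append, List.length_take]
      omega
    have h8 := hT (t + t') h7.ge
    have h9 : n = (Ow τ a u s₀ (j + m)).length + p := by omega
    have e6 : ((qsOf τ u s₀ j m).map (fresh τ B)).length = m := by simp [hql]
    rw [e6] at ht'
    have h10 : p * (2 * m + 3) ≤ p * (7 * Bd) := Nat.mul_le_mul_left _ (by omega)
    have h11 : (2 * u.length + 92) * Bd * n = (2 * u.length + 92) * Bd
        * (Ow τ a u s₀ (j + m)).length + (2 * u.length + 85) * Bd * p + p * (7 * Bd) := by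
      rw [h9]; ring
    have h12 := Nat.zero_le ((2 * u.length + 85) * Bd * p)
    omega

/-- Space bound. -/
theorem S_le (hne : τ.NonErasing) (hB : ∀ q x, (τ.out q x).length ≤ B) (hu : u ≠ [])
    (huB : u.length ≤ B) {n Bd l₀ : ℕ} (hG : Good τ a u s₀ n Bd l₀) :
    (mach τ a u s₀ B).SpaceLE n (((u.length + 9) * Bd : ℕ) : ℝ) := by
  intro t ht i
  have hc : t = 0 ∨ ((mach τ a u s₀ B).conf (t - 1)).out.length < n := by
    by_contra hcon
    push Not at hcon
    have : (mach τ a u s₀ B).T n ≤ t - 1 := Nat.sInf_le hcon.2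
    omega
  obtain ⟨t₁, j, m, g, e1, _, _, _, e5, _, _, hSP, _⟩ := main (a := a) (s₀ := s₀) hne hB hu huB
    (t + 1) (by omega)
  have h1 : t ≤ t₁ := by
    have h2 := outlen_le (M := mach τ a u s₀ B) t₁
    rw [e5] at h2
    have h3 : (LSl τ a u s₀ B j m g).out = Ow τ a u s₀ (t + 1) := by rw [← e1]; rfl
    rw [h3] at h2
    have h4 := lt_Ow (a := a) (s₀ := s₀) hne hu (t + 1)
    omega
  obtain ⟨h2, h3⟩ := hSP n Bd l₀ hG t h1 hc i
  exact ⟨by exact_mod_cast h2, fun j hj => h3 j (by exact_mod_cast hj)⟩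

theorem gen (hne : τ.NonErasing) (hB : ∀ q x, (τ.out q x).length ≤ B) (hu : u ≠ [])
    (huB : u.length ≤ B) {w : ℕ → S} (hw : ∀ l, IsPre (Ow τ a u s₀ l) w) :
    (mach τ a u s₀ B).Generates w := by
  have key : ∀ l : ℕ, ∃ t, ((mach τ a u s₀ B).conf t).out = Ow τ a u s₀ (l + 1) ∧ l < t := by
    intro l
    obtain ⟨t₁, j, m, g, e1, _, _, _, e5, _⟩ := main (a := a) (s₀ := s₀) hne hB hu huB
      (l + 1) (by omega)
    have h3 : (LSl τ a u s₀ B j m g).out = Ow τ a u s₀ (l + 1) := by rw [← e1]; rfl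
    refine ⟨t₁, by rw [e5, h3], ?_⟩
    have h2 := outlen_le (M := mach τ a u s₀ B) t₁
    rw [e5, h3] at h2
    have h4 := lt_Ow (a := a) (s₀ := s₀) hne hu (l + 1)
    omega
  constructor
  · intro t i hi
    obtain ⟨t₁, h1, h2⟩ := key t
    have h3 := out_mono (M := mach τ a u s₀ B) h2.le
    rw [h1] at h3
    rw [← hw (t + 1) i (hi.trans_le h3.length_le)]
    exact h3.getElem hi
  · intro n
    obtain ⟨t₁, h1, _⟩ := key n
    refine ⟨t₁, ?_⟩
    rw [h1]
    have := lt_Ow (a := a) (s₀ := s₀) hne hu (n + 1)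
    omega

end Pool.Agent.H584R2.Dg
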