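import Pool.Agent.H584R2.Dg.Sim

/-!
# Simulation of the pipeline
-/

namespace Pool.Agent.H584R2.Dg

variable {S : Type} [Finite S] {τ : Dgsm S} {a : S} {u : List S} {s₀ : τ.Q} {B : ℕ}

/-- The cell of a stage. -/
def cellOf {S : Type} {τ : Dgsm S} {B : ℕ} (c : Stage τ B) : Sym S τ.Q B := .cell c.1 c.2.1 c.2.2

/-- Left part of tape `P` when the head scans the top stage of `st`. -/
def pzL : List (Stage τ B) → List (Sym S τ.Q B)
  | [] => []
  | _ :: st => st.map cellOf ++ [.mark]

/-- Right part of tape `P` when the head scans the top stage of `st`. -/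
def pzR (upper : List (Sym S τ.Q B)) : List (Stage τ B) → List (Sym S τ.Q B)
  | [] => .mark :: upper
  | c :: _ => cellOf c :: upper

@[simp] theorem rep_map_head_tail {Γ Δ : Type} (b : Γ) (f : Δ → Γ) (L : List Γ) (v : List Δ) :
    rep b L ((Option.map f v.head?).getD b :: (List.map f v).tail) = rep b L (List.map f v) := by
  cases v with
  | nil => simp
  | cons x v => simp

@[simp high] theorem act_stay_map {Γ Δ : Type} (b : Γ) (f : Δ → Γ) (L : List Γ) (v : List Δ) :
    act b ((Option.map f v.head?).getD b) .stay L (List.map f v) = rep b L (List.map f v) := by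
  simp [act]

theorem length_pz (st : List (Stage τ B)) (upper : List (Sym S τ.Q B)) :
    (pzL st).length = st.length ∧ (pzR upper st).length = upper.length + 1 := by
  cases st <;> simp [pzL, pzR]

theorem act_left_pz (b x : Sym S τ.Q B) (st : List (Stage τ B)) (R : List (Sym S τ.Q B)) :
    act b x .left (st.map cellOf ++ [.mark]) R = rep b (pzL st) (pzR (x :: R.tail) st) := by
  cases st <;> simp [act, pzL, pzR]

theorem W_pz {s : ℕ} {st : List (Stage τ B)} {upper : List (Sym S τ.Q B)}
    (h : st.length + upper.length + 1 < s) : W s (pzL st) (pzR upper st) := by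
  obtain ⟨h1, h2⟩ := length_pz st upper
  exact ⟨by omega, by omega⟩

/-- Simulation of `pull`. -/
theorem pull_sim {s : ℕ} {LC RC : List (Sym S τ.Q B)} {o : List S} {ov : Bool}
    (hC : W s LC RC) (hB : ∀ q x, (τ.out q x).length ≤ B) (st : List (Stage τ B)) :
    ∀ (v : List S) (y : S) (st' : List (Stage τ B)) (v' : List S)
      (upper : List (Sym S τ.Q B)) (c : List S),
      pull τ st v = some (y, st', v') → st.length + upper.length + 2 < s →
      c.length + v.length + 1 < s →
      ∃ t ≤ 2 * st.length + 1, ∃ c' : List S, c'.reverse ++ v' = c.reverse ++ v ∧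
        Run s t
          (cf τ a u s₀ B (.down ov) (c.map .ltr ++ [.mark]) (v.map .ltr) (pzL st)
            (pzR upper st) LC RC o)
          (cf τ a u s₀ B (.up ov y) (c'.map .ltr ++ [.mark]) (v'.map .ltr)
            (st'.map cellOf ++ [.mark]) upper LC RC o) := by
  induction st with
  | nil =>
    intro v y st' v' upper c h hP hA
    cases v with
    | nil => simp [pull] at h
    | cons x v =>
      simp only [pull, Option.some.injEq, Prod.mk.injEq] at h
      obtain ⟨rfl, rfl, rfl⟩ := h
      refine ⟨1, by simp, x :: c, by simp, ?_⟩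
      refine Run.one (sp_cf ?_ ?_ hC) ?_
      · simp only [List.length_cons] at hA
        constructor <;> simp <;> omega
      · exact W_pz (by simp only [List.length_nil] at hP ⊢; omega)
      · rw [step_cf (hm := rfl)]
        simp [cf, delta, act, pzL, pzR]
  | cons z st ih =>
    intro v y st' v' upper c h hP hA
    obtain ⟨s1, q, ⟨b, hb⟩⟩ := z
    have hWA : W s (c.map Sym.ltr ++ [.mark] : List (Sym S τ.Q B)) (v.map .ltr) := by
      constructor <;> simp <;> omega
    cases b with
    | cons z b =>
      simp only [pull, Option.some.injEq, Prod.mk.injEq] at h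
      obtain ⟨rfl, rfl, rfl⟩ := h
      refine ⟨1, by omega, c, rfl, ?_⟩
      refine Run.one (sp_cf hWA (W_pz (by omega)) hC) ?_
      rw [step_cf (hm := rfl)]
      simp [cf, delta, act, pzL, pzR, cellOf]
    | nil =>
      simp only [pull] at h
      cases hp : pull τ st v with
      | none => rw [hp] at h; simp at h
      | some z =>
        obtain ⟨x, st1, v1⟩ := z
        rw [hp] at h
        simp only at h
        cases ho : τ.out q x with
        | nil => rw [ho] at h; simp at h
        | cons y' r =>
          rw [ho] at h
          simp only [Option.some.injEq, Prod.mk.injEq] at h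
          obtain ⟨rfl, rfl, rfl⟩ := h
          simp only [List.length_cons] at hP
          obtain ⟨t, ht, c', hc', hrun⟩ := ih v x st1 v1
            (cellOf (s1, q, (⟨[], hb⟩ : Buf S B)) :: upper) c hp (by simp; omega) hA
          have hl := (pull_some hB st v x st1 v1 hp).2.2
          have hcl : c'.length + v1.length = c.length + v.length := by
            have := congrArg List.length hc'
            simpa using this
          refine ⟨1 + t + 1, by simp; omega, c', hc', ?_⟩
          have h1 : Run s 1
              (cf τ a u s₀ B (.down ov) (c.map .ltr ++ [.mark]) (v.map .ltr)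
                (pzL ((s1, q, (⟨[], hb⟩ : Buf S B)) :: st))
                (pzR upper ((s1, q, (⟨[], hb⟩ : Buf S B)) :: st)) LC RC o)
              (cf τ a u s₀ B (.down ov) (c.map .ltr ++ [.mark]) (v.map .ltr) (pzL st)
                (pzR (cellOf (s1, q, (⟨[], hb⟩ : Buf S B)) :: upper) st) LC RC o) := by
            refine Run.one (sp_cf hWA (W_pz (by simp; omega)) hC) ?_
            rw [step_cf (hm := rfl)]
            simp [cf, delta, pzL, pzR, cellOf, act_left_pz]
          refine (h1.trans hrun).snoc (sp_cf ?_ ?_ hC) ?_
          · constructor <;> simp <;> omega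
          · constructor <;> simp <;> omega
          · rw [step_cf (m := ⟨.up ov y', ((v1.map Sym.ltr).headD .blank, .stay),
              (.cell s1 (τ.next q x) (toBuf B r), .right), (RC.headD .blank, .stay), none⟩)
              (hm := by simp only [cellOf, List.headD_cons, delta, ho])]
            simp [cf, act, cellOf]

/-- Going down when all buffers are empty. -/
theorem down_end {s : ℕ} {LA RA LC RC : List (Sym S τ.Q B)} {o : List S} {ov : Bool}
    (hA : W s LA RA) (hC : W s LC RC) (st : List (Stage τ B)) :
    ∀ (upper : List (Sym S τ.Q B)), (∀ c ∈ st, c.2.2.1 = []) → st.length + upper.length + 1 < s →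
      Run s st.length (cf τ a u s₀ B (.down ov) LA RA (pzL st) (pzR upper st) LC RC o)
        (cf τ a u s₀ B (.down ov) LA RA [] (.mark :: ((st.map cellOf).reverse ++ upper)) LC RC
          o) := by
  induction st with
  | nil =>
    intro upper _ _
    simpa [pzL, pzR] using Run.refl s _
  | cons c st ih =>
    intro upper hb hs
    simp only [List.length_cons] at hs
    have h1 := ih (cellOf c :: upper) (fun d hd => hb d (by simp [hd])) (by simp; omega)
    have h2 := hb c (by simp)
    obtain ⟨s1, q, ⟨b, hb'⟩⟩ := c
    simp only at h2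
    subst h2
    refine Run.cons (sp_cf hA (W_pz (by simp; omega)) hC) ?_ (by simpa using h1)
    rw [step_cf (hm := rfl)]
    simp [cf, delta, pzL, pzR, cellOf, act_left_pz]

/-- The reset stage. -/
def resetC (c : Stage τ B) : Stage τ B := fresh τ B c.1

theorem toTop_loop {s : ℕ} {LA RA LC RC : List (Sym S τ.Q B)} {o : List S} {ov : Bool}
    (hA : W s LA RA) (hC : W s LC RC) (bs : List (Stage τ B)) :
    ∀ (q : τ.Q) (LP : List (Sym S τ.Q B)), LP.length + bs.length < s →
      Run s bs.length (cf τ a u s₀ B (.toTop ov q) LA RA LP (bs.map cellOf) LC RC o)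
        (cf τ a u s₀ B (.toTop ov (bs.foldl (fun _ c => c.2.1) q)) LA RA
          ((bs.map (fun c => cellOf (resetC c))).reverse ++ LP) [] LC RC o) := by
  induction bs with
  | nil =>
    intro q LP _
    simpa using Run.refl s _
  | cons c bs ih =>
    intro q LP hs
    simp only [List.length_cons] at hs
    have h1 := ih c.2.1 (cellOf (resetC c) :: LP) (by simp; omega)
    refine Run.cons (sp_cf hA ⟨by omega, by simp; omega⟩ hC) ?_ (by simpa using h1)
    rw [step_cf (hm := rfl)]
    simp [cf, delta, act, cellOf, resetC, fresh]

/-! ## The tape `C` -/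

/-- The contents of tape `C` after the letters `ys` of the current block have been written; `G` is
what stood to the left of the head when the block was started. -/
def CI (G : List (Sym S τ.Q B)) (ys : List S) (ov : Bool) (L R : List (Sym S τ.Q B)) : Prop :=
  (ov = false ∧ ∃ pre, G = pre ++ L ∧ pre.length = ys.length ∧
    ((ys = [] ∧ R = []) ∨ ∃ p h, pre = p ++ [h] ∧ R = h :: ys.reverse.map .ltr)) ∨
  (ov = true ∧ G.length < ys.length ∧ L = [] ∧ ∃ T : List S, T.length = G.length ∧
    R = .mark :: T.map .ltr)

theorem CI.zero (G : List (Sym S τ.Q B)) : CI G [] false G [] :=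
  .inl ⟨rfl, [], by simp, rfl, .inl ⟨rfl, rfl⟩⟩

theorem CI.length {G : List (Sym S τ.Q B)} {ys : List S} {ov : Bool} {L R : List (Sym S τ.Q B)}
    (h : CI G ys ov L R) : L.length ≤ G.length ∧ L.length + R.length ≤ G.length + 1 := by
  rcases h with ⟨_, pre, h1, h2, h3⟩ | ⟨_, _, h2, T, h3, h4⟩
  · rcases h3 with ⟨h3, h4⟩ | ⟨p, h', h3, h4⟩
    · subst h1 h4
      simp
      omega
    · subst h1 h4 h3
      simp at h2 ⊢
      omega
  · subst h2 h4
    simp [h3]

theorem CI.W {G : List (Sym S τ.Q B)} {ys : List S} {ov : Bool} {L R : List (Sym S τ.Q B)}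
    (h : CI G ys ov L R) {s : ℕ} (hs : G.length < s) : W s L R :=
  ⟨h.length.1.trans_lt hs, h.length.2.trans hs⟩

/-- The step which writes a letter. -/
theorem up_step {s : ℕ} {LA RA LP : List (Sym S τ.Q B)} {o : List S} {ov : Bool} {y : S}
    {g : List (Sym S τ.Q B)} {ys : List S} {L R : List (Sym S τ.Q B)}
    (hg : ∀ z ∈ g, z ≠ .mark) (hA : W s LA RA) (hP : LP.length < s) (hs : g.length + 1 < s)
    (h : CI (g ++ [.mark]) ys ov L R) :
    ∃ ov' L' R', CI (g ++ [.mark]) (ys ++ [y]) ov' L' R' ∧
      Run s 1 (cf τ a u s₀ B (.up ov y) LA RA LP [] L R o)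
        (cf τ a u s₀ B (.down ov') LA RA LP [] L' R' (o ++ [y])) := by
  have hC : W s L R := h.W (by simpa using hs)
  have hsp : Sp s (cf τ a u s₀ B (.up ov y) LA RA LP [] L R o) :=
    sp_cf hA ⟨hP, by simp; omega⟩ hC
  rcases h with ⟨h0, pre, h1, h2, h3⟩ | ⟨h0, h1, h2, T, h3, h4⟩
  · subst h0
    rcases h3 with ⟨h3, h4⟩ | ⟨p, h', h3, h4⟩
    · -- first letter
      subst h3 h4
      have : pre = [] := List.length_eq_zero_iff.1 (by simpa using h2)
      subst this
      simp only [List.nil_append] at h1
      subst h1
      cases g with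
      | nil =>
        refine ⟨false, [], [.mark, .ltr y], .inl ⟨rfl, [.mark], by simp, by simp,
          .inr ⟨[], .mark, by simp, by simp⟩⟩, Run.one hsp ?_⟩
        rw [step_cf (hm := rfl)]
        simp [cf, delta, act]
      | cons z g =>
        refine ⟨false, g ++ [.mark], [z, .ltr y], .inl ⟨rfl, [z], by simp, by simp,
          .inr ⟨[], z, by simp, by simp⟩⟩, Run.one hsp ?_⟩
        rw [step_cf (hm := rfl)]
        simp [cf, delta, act]
    · subst h4
      cases L with
      | nil =>
        -- overflow
        simp only [List.append_nil] at h1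
        have h5 : h' = .mark := by
          rw [h3] at h1
          have := congrArg List.getLast? h1
          simpa using this.symm
        subst h5
        refine ⟨true, [], .mark :: ys.reverse.map .ltr, .inr ⟨rfl, ?_, rfl, ys.reverse, ?_, rfl⟩,
          Run.one hsp ?_⟩
        · have := congrArg List.length h1
          simp only [List.length_append, List.length_cons, List.length_nil] at this ⊢
          omega
        · have := congrArg List.length h1
          simp only [List.length_append, List.length_cons, List.length_nil,
            List.length_reverse] at this ⊢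
          omega
        · rw [step_cf (hm := rfl)]
          simp [cf, delta, act]
      | cons z L =>
        have h5 : h' ≠ .mark := by
          rw [h3] at h1
          have h6 : p ++ [h'] ++ (z :: L) = (p ++ [h'] ++ (z :: L).dropLast) ++
              [(z :: L).getLast (by simp)] := by
            rw [List.append_assoc, List.append_assoc, List.append_assoc,
              List.dropLast_append_getLast]
          rw [h6] at h1
          have h7 := (List.append_inj' h1 (by simp)).1
          exact hg h' (by rw [h7]; simp)
        refine ⟨false, L, z :: .ltr y :: ys.reverse.map .ltr, .inl ⟨rfl, pre ++ [z], ?_, ?_,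
          .inr ⟨pre, z, rfl, by simp⟩⟩, Run.one hsp ?_⟩
        · rw [h1]; simp
        · simp [h2]
        · rw [step_cf (m := ⟨.down false, (RA.headD .blank, .stay), (.blank, .stay),
            (.ltr y, .left), some y⟩) (hm := by
              simp only [List.headD_nil, List.headD_cons, delta])]
          simp [cf, act]
  · subst h0 h2 h4
    refine ⟨true, [], .mark :: T.map .ltr, .inr ⟨rfl, ?_, rfl, T, h3, rfl⟩, Run.one hsp ?_⟩
    · simp only [List.length_append, List.length_cons, List.length_nil] at h1 ⊢
      omega
    · rw [step_cf (hm := rfl)]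
      simp [cf, delta, act]

end Pool.Agent.H584R2.Dg
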