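import Pool.Agent.H584R2.Dg.Mach

/-!
# Semantics of the pipeline
-/

namespace Pool.Agent.H584R2.Dg

variable {S : Type}

namespace Dgsm

/-- The state after reading a word. -/
def nexts (τ : Dgsm S) (q : τ.Q) (v : List S) : τ.Q := v.foldl τ.next q

theorem run_append (τ : Dgsm S) (v v' : List S) (q : τ.Q) :
    τ.run q (v ++ v') = τ.run q v ++ τ.run (τ.nexts q v) v' := by
  induction v generalizing q with
  | nil => simp [run, nexts]
  | cons x v ih => simp [run, nexts, ih]

theorem length_run {τ : Dgsm S} (h : τ.NonErasing) (v : List S) (q : τ.Q) :
    v.length ≤ (τ.run q v).length := by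
  induction v generalizing q with
  | nil => simp [run]
  | cons x v ih =>
    have h1 := ih (τ.next q x)
    have h2 : 0 < (τ.out q x).length := List.length_pos_of_ne_nil (h q x)
    simp only [run, List.length_append, List.length_cons]
    omega

end Dgsm

/-- A stage of the pipeline: start state, current state, buffer. -/
abbrev Stage (τ : Dgsm S) (B : ℕ) := τ.Q × τ.Q × Buf S B

/-- Remaining output of a pipeline (top stage first) on a remaining input. -/
def rem (τ : Dgsm S) {B : ℕ} : List (Stage τ B) → List S → List S
  | [], v => v
  | c :: st, v => c.2.2.1 ++ τ.run c.2.1 (rem τ st v)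

/-- Start states and final states of the stages. -/
def fl (τ : Dgsm S) {B : ℕ} : List (Stage τ B) → List S → List (τ.Q × τ.Q)
  | [], _ => []
  | c :: st, v => (c.1, τ.nexts c.2.1 (rem τ st v)) :: fl τ st v

/-- Pulling one letter out of the pipeline. -/
def pull (τ : Dgsm S) {B : ℕ} :
    List (Stage τ B) → List S → Option (S × List (Stage τ B) × List S)
  | [], [] => none
  | [], x :: v => some (x, [], v)
  | (s, q, ⟨y :: b, hb⟩) :: st, v => some (y, (s, q, toBuf B b) :: st, v)
  | (s, q, ⟨[], hb⟩) :: st, v => match pull τ st v with
    | none => none
    | some (x, st', v') => match τ.out q x with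
      | [] => none
      | y :: r => some (y, (s, τ.next q x, toBuf B r) :: st', v')

variable {τ : Dgsm S} {B : ℕ}

theorem pull_some (hB : ∀ q x, (τ.out q x).length ≤ B) :
    ∀ (st : List (Stage τ B)) (v : List S) (y : S) (st' : List (Stage τ B)) (v' : List S),
      pull τ st v = some (y, st', v') →
      rem τ st v = y :: rem τ st' v' ∧ fl τ st' v' = fl τ st v ∧ st'.length = st.length := by
  intro st
  induction st with
  | nil =>
    intro v y st' v' h
    cases v with
    | nil => simp [pull] at h
    | cons x v =>
      simp only [pull, Option.some.injEq, Prod.mk.injEq] at h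
      obtain ⟨rfl, rfl, rfl⟩ := h
      simp [rem, fl]
  | cons c st ih =>
    intro v y st' v' h
    obtain ⟨s, q, ⟨b, hb⟩⟩ := c
    cases b with
    | cons z b =>
      simp only [pull, Option.some.injEq, Prod.mk.injEq] at h
      obtain ⟨rfl, rfl, rfl⟩ := h
      have hb' : b.length ≤ B := by simp at hb; omega
      simp [rem, fl, toBuf_val hb']
    | nil =>
      simp only [pull] at h
      cases hp : pull τ st v with
      | none => rw [hp] at h; simp at h
      | some z =>
        obtain ⟨x, st1, v1⟩ := z
        rw [hp] at h
        simp only at h
        cases ho : τ.out q x with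
        | nil => rw [ho] at h; simp at h
        | cons y' r =>
          rw [ho] at h
          simp only [Option.some.injEq, Prod.mk.injEq] at h
          obtain ⟨rfl, rfl, rfl⟩ := h
          obtain ⟨h1, h2, h3⟩ := ih v x st1 v1 hp
          have hr : r.length ≤ B := by
            have := hB q x
            rw [ho] at this
            simp at this
            omega
          simp [rem, fl, h1, h2, h3, toBuf_val hr, Dgsm.run, ho, Dgsm.nexts]

theorem pull_none (hne : τ.NonErasing) :
    ∀ (st : List (Stage τ B)) (v : List S), pull τ st v = none →
      rem τ st v = [] ∧ v = [] ∧ (∀ c ∈ st, c.2.2.1 = []) ∧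
        fl τ st v = st.map (fun c => (c.1, c.2.1)) := by
  intro st
  induction st with
  | nil =>
    intro v h
    cases v with
    | nil => simp [rem, fl]
    | cons x v => simp [pull] at h
  | cons c st ih =>
    intro v h
    obtain ⟨s, q, ⟨b, hb⟩⟩ := c
    cases b with
    | cons z b => simp [pull] at h
    | nil =>
      simp only [pull] at h
      cases hp : pull τ st v with
      | some z =>
        obtain ⟨x, st1, v1⟩ := z
        rw [hp] at h
        simp only at h
        cases ho : τ.out q x with
        | nil => exact absurd ho (hne q x)
        | cons y' r => rw [ho] at h; simp at h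
      | none =>
        obtain ⟨h1, h2, h3, h4⟩ := ih v hp
        refine ⟨by simp [rem, h1, Dgsm.run], h2, ?_, ?_⟩
        · intro c hc
          rcases List.mem_cons.1 hc with rfl | hc
          · rfl
          · exact h3 c hc
        · simp [fl, h1, h4, Dgsm.nexts]

theorem pull_eq_none_iff (hne : τ.NonErasing) (hB : ∀ q x, (τ.out q x).length ≤ B)
    (st : List (Stage τ B)) (v : List S) : pull τ st v = none ↔ rem τ st v = [] := by
  constructor
  · exact fun h => (pull_none hne st v h).1
  · intro h
    cases hp : pull τ st v with
    | none => rfl
    | some z =>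
      obtain ⟨y, st', v'⟩ := z
      have := (pull_some hB st v y st' v' hp).1
      rw [h] at this
      simp at this

/-- A fresh stage. -/
def fresh (τ : Dgsm S) (B : ℕ) (q : τ.Q) : Stage τ B := (q, q, toBuf B [])

end Pool.Agent.H584R2.Dg
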