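import Pool.Agent.H584R2.Dg.Sem

/-!
# Loops of the machine
-/

namespace Pool.Agent.H584R2.Dg

variable {S : Type} [Finite S] {τ : Dgsm S} {a : S} {u : List S} {s₀ : τ.Q} {B : ℕ}

/-- Size condition on a tape given by two lists. -/
def W (s : ℕ) {Γ : Type} (L R : List Γ) : Prop := L.length < s ∧ L.length + R.length ≤ s

theorem act_stay_same {Γ : Type} (b : Γ) (L R : List Γ) :
    act b (R.headD b) .stay L R = rep b L R := by
  cases R with
  | nil => simp [act]
  | cons x R => simp [act]

theorem act_left_same {Γ : Type} (b c : Γ) (L R : List Γ) :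
    act b (R.headD b) .left (c :: L) R = rep b L (c :: R) := by
  cases R with
  | nil => simp [act]
  | cons x R => simp [act]

theorem act_right_same {Γ : Type} (b c : Γ) (L R : List Γ) :
    act b c .right L (c :: R) = rep b (c :: L) R := by
  simp [act]

@[simp high] theorem act_stay_same' {Γ : Type} (b : Γ) (L R : List Γ) :
    act b (R.head?.getD b) .stay L R = rep b L R := by
  simpa using act_stay_same b L R

@[simp high] theorem act_left_same' {Γ : Type} (b c : Γ) (L R : List Γ) :
    act b (R.head?.getD b) .left (c :: L) R = rep b L (c :: R) := by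
  simpa using act_left_same b c L R

@[simp] theorem rep_head_tail {Γ : Type} (b : Γ) (L R : List Γ) :
    rep b L (R.head?.getD b :: R.tail) = rep b L R := by
  cases R with
  | nil => simp
  | cons x R => simp

section rew

theorem delta_rewA {α π γ : Sym S τ.Q B} (h : α ≠ .mark) :
    delta τ a u s₀ B .rewA α π γ = ⟨.rewA, (α, .left), (π, .stay), (γ, .stay), none⟩ := by
  cases α <;> simp_all [delta]

theorem rewA_loop {s : ℕ} {LP RP LC RC : List (Sym S τ.Q B)} {o : List S}
    (hP : W s LP RP) (hC : W s LC RC) (X : List (Sym S τ.Q B)) :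
    ∀ RA : List (Sym S τ.Q B), (∀ z ∈ X, z ≠ .mark) → RA.headD .blank ≠ .mark →
      W s (X ++ [.mark]) RA →
      Run s (X.length + 1) (cf τ a u s₀ B .rewA (X ++ [.mark]) RA LP RP LC RC o)
        (cf τ a u s₀ B .rewA [] (.mark :: (X.reverse ++ RA)) LP RP LC RC o) := by
  induction X with
  | nil =>
    intro RA _ hR hA
    refine Run.one (sp_cf hA hP hC) ?_
    rw [step_cf _ _ _ _ _ _ _ _ _ (delta_rewA hR)]
    simp [cf, act_stay_same, act_left_same]
  | cons z X ih =>
    intro RA hX hR hA
    have hA' : W s (X ++ [.mark]) (z :: RA) := by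
      obtain ⟨h1, h2⟩ := hA
      simp only [List.cons_append, List.length_cons, List.length_append, List.length_nil] at h1 h2
      constructor <;> simp <;> omega
    have := ih (z :: RA) (fun y hy => hX y (by simp [hy])) (by simpa using hX z (by simp)) hA'
    refine Run.cons (c' := cf τ a u s₀ B .rewA (X ++ [.mark]) (z :: RA) LP RP LC RC o)
      (sp_cf hA hP hC) ?_ (by simpa using this)
    rw [step_cf _ _ _ _ _ _ _ _ _ (delta_rewA hR)]
    simp [cf, act_stay_same, act_left_same]

/-- Rewinding tape `A` and starting the next level. -/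
theorem rewA_run {s : ℕ} {LP RP LC RC : List (Sym S τ.Q B)} {o : List S}
    (hP : W s LP RP) (hC : W s LC RC) (X RA : List (Sym S τ.Q B))
    (hX : ∀ z ∈ X, z ≠ .mark) (hR : RA.headD .blank ≠ .mark) (hA : W s (X ++ [.mark]) RA) :
    Run s (X.length + 2) (cf τ a u s₀ B .rewA (X ++ [.mark]) RA LP RP LC RC o)
        (cf τ a u s₀ B (.down false) [.mark] (X.reverse ++ RA) LP RP LC RC o) := by
  refine (rewA_loop hP hC X RA hX hR hA).snoc ?_ ?_
  · refine sp_cf ?_ hP hC
    obtain ⟨h1, h2⟩ := hA
    simp only [List.length_append, List.length_cons, List.length_nil] at h1 h2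
    constructor <;> simp <;> omega
  · rw [step_cf (hm := rfl)]
    simp [cf, act_stay_same, delta, act]

theorem delta_ckA {α π γ : Sym S τ.Q B} (h : α ≠ .mark) :
    delta τ a u s₀ B .ckA α π γ = ⟨.ckA, (α, .left), (π, .stay), (γ, .stay), none⟩ := by
  cases α <;> simp_all [delta]

theorem ckA_loop {s : ℕ} {LP RP LC RC : List (Sym S τ.Q B)} {o : List S}
    (hP : W s LP RP) (hC : W s LC RC) (X : List (Sym S τ.Q B)) :
    ∀ RA : List (Sym S τ.Q B), (∀ z ∈ X, z ≠ .mark) → RA.headD .blank ≠ .mark →
      W s (X ++ [.mark]) RA →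
      Run s (X.length + 1) (cf τ a u s₀ B .ckA (X ++ [.mark]) RA LP RP LC RC o)
        (cf τ a u s₀ B .ckA [] (.mark :: (X.reverse ++ RA)) LP RP LC RC o) := by
  induction X with
  | nil =>
    intro RA _ hR hA
    refine Run.one (sp_cf hA hP hC) ?_
    rw [step_cf _ _ _ _ _ _ _ _ _ (delta_ckA hR)]
    simp [cf, act_stay_same, act_left_same]
  | cons z X ih =>
    intro RA hX hR hA
    have hA' : W s (X ++ [.mark]) (z :: RA) := by
      obtain ⟨h1, h2⟩ := hA
      simp only [List.cons_append, List.length_cons, List.length_append, List.length_nil] at h1 h2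
      constructor <;> simp <;> omega
    have := ih (z :: RA) (fun y hy => hX y (by simp [hy])) (by simpa using hX z (by simp)) hA'
    refine Run.cons (c' := cf τ a u s₀ B .ckA (X ++ [.mark]) (z :: RA) LP RP LC RC o)
      (sp_cf hA hP hC) ?_ (by simpa using this)
    rw [step_cf _ _ _ _ _ _ _ _ _ (delta_ckA hR)]
    simp [cf, act_stay_same, act_left_same]

theorem ckA_run {s : ℕ} {LP RP LC RC : List (Sym S τ.Q B)} {o : List S}
    (hP : W s LP RP) (hC : W s LC RC) (X RA : List (Sym S τ.Q B))
    (hX : ∀ z ∈ X, z ≠ .mark) (hR : RA.headD .blank ≠ .mark) (hA : W s (X ++ [.mark]) RA) :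
    Run s (X.length + 2) (cf τ a u s₀ B .ckA (X ++ [.mark]) RA LP RP LC RC o)
        (cf τ a u s₀ B .copy [.mark] (X.reverse ++ RA) LP RP LC RC o) := by
  refine (ckA_loop hP hC X RA hX hR hA).snoc ?_ ?_
  · refine sp_cf ?_ hP hC
    obtain ⟨h1, h2⟩ := hA
    simp only [List.length_append, List.length_cons, List.length_nil] at h1 h2
    constructor <;> simp <;> omega
  · rw [step_cf (hm := rfl)]
    simp [cf, act_stay_same, delta, act]

theorem delta_erase {α π γ : Sym S τ.Q B} (h : γ ≠ .mark) :
    delta τ a u s₀ B .erase α π γ = ⟨.erase, (α, .stay), (π, .stay), (.blank, .left), none⟩ := by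
  cases γ <;> simp_all [delta]

theorem erase_loop {s : ℕ} {LA RA LP RP : List (Sym S τ.Q B)} {o : List S}
    (hA : W s LA RA) (hP : W s LP RP) (X : List (Sym S τ.Q B)) :
    ∀ h : Sym S τ.Q B, (∀ z ∈ X, z ≠ .mark) → h ≠ .mark → W s (X ++ [.mark]) [h] →
      Run s (X.length + 1) (cf τ a u s₀ B .erase LA RA LP RP (X ++ [.mark]) [h] o)
        (cf τ a u s₀ B .erase LA RA LP RP [] [.mark] o) := by
  induction X with
  | nil =>
    intro h _ hR hC
    refine Run.one (sp_cf hA hP hC) ?_
    rw [step_cf _ _ _ _ _ _ _ _ _ (delta_erase (by simpa using hR))]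
    simp [cf, act_stay_same, act]
  | cons z X ih =>
    intro h hX hR hC
    have hC' : W s (X ++ [.mark]) [z] := by
      obtain ⟨h1, h2⟩ := hC
      simp only [List.cons_append, List.length_cons, List.length_append, List.length_nil] at h1 h2
      constructor <;> simp <;> omega
    have := ih z (fun y hy => hX y (by simp [hy])) (hX z (by simp)) hC'
    refine Run.cons (c' := cf τ a u s₀ B .erase LA RA LP RP (X ++ [.mark]) [z] o)
      (sp_cf hA hP hC) ?_ (by simpa using this)
    rw [step_cf _ _ _ _ _ _ _ _ _ (delta_erase (by simpa using hR))]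
    simp [cf, act_stay_same, act]

theorem erase_end {s : ℕ} {LA RA LP RP L : List (Sym S τ.Q B)} {o : List S}
    (hA : W s LA RA) (hP : W s LP RP) (hC : W s L [.mark]) :
    Run s 1 (cf τ a u s₀ B .erase LA RA LP RP L [.mark] o)
        (cf τ a u s₀ B .rewA LA RA LP RP (.mark :: L) [] o) := by
  refine Run.one (sp_cf hA hP hC) ?_
  rw [step_cf (hm := rfl)]
  simp [cf, act_stay_same, delta, act]

theorem delta_ckP {q : τ.Q} {α π γ : Sym S τ.Q B} (h : π ≠ .mark) :
    delta τ a u s₀ B (.ckP q) α π γ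
      = ⟨.ckP q, (α, .stay), (.blank, .left), (γ, .stay), none⟩ := by
  cases π <;> simp_all [delta]

theorem ckP_loop {s : ℕ} {q : τ.Q} {LA RA LC RC : List (Sym S τ.Q B)} {o : List S}
    (hA : W s LA RA) (hC : W s LC RC) (X : List (Sym S τ.Q B)) :
    ∀ R : List (Sym S τ.Q B), (∀ z ∈ X, z ≠ .mark) → R.headD .blank ≠ .mark → R.tail = [] →
      W s (X ++ [.mark]) R → W s (X ++ [.mark]) [Sym.blank] →
      Run s (X.length + 1) (cf τ a u s₀ B (.ckP q) LA RA (X ++ [.mark]) R LC RC o)
        (cf τ a u s₀ B (.ckP q) LA RA [] [.mark] LC RC o) := by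
  induction X with
  | nil =>
    intro R _ hR hR' hP _
    refine Run.one (sp_cf hA hP hC) ?_
    rw [step_cf _ _ _ _ _ _ _ _ _ (delta_ckP hR)]
    simp [cf, act_stay_same, act, hR']
  | cons z X ih =>
    intro R hX hR hR' hP hP2
    have hP' : W s (X ++ [.mark]) [z] := by
      obtain ⟨h1, h2⟩ := hP2
      simp only [List.cons_append, List.length_cons, List.length_append, List.length_nil] at h1 h2
      constructor <;> simp <;> omega
    have hP'' : W s (X ++ [.mark]) [Sym.blank] := by
      obtain ⟨h1, h2⟩ := hP2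
      simp only [List.cons_append, List.length_cons, List.length_append, List.length_nil] at h1 h2
      constructor <;> simp <;> omega
    have := ih [z] (fun y hy => hX y (by simp [hy])) (by simpa using hX z (by simp)) rfl hP' hP''
    refine Run.cons (c' := cf τ a u s₀ B (.ckP q) LA RA (X ++ [.mark]) [z] LC RC o)
      (sp_cf hA hP hC) ?_ (by simpa using this)
    rw [step_cf _ _ _ _ _ _ _ _ _ (delta_ckP hR)]
    simp [cf, act_stay_same, act, hR']

/-- Erasing the pipeline and writing a new first stage. -/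
theorem ckP_run {s : ℕ} {q : τ.Q} {LA RA LC RC : List (Sym S τ.Q B)} {o : List S}
    (hs : 2 < s) (hA : W s LA RA) (hC : W s LC RC) (X : List (Sym S τ.Q B))
    (hX : ∀ z ∈ X, z ≠ .mark) (hP : W s (X ++ [.mark]) [Sym.blank]) :
    Run s (X.length + 3) (cf τ a u s₀ B (.ckP q) LA RA (X ++ [.mark]) [] LC RC o)
        (cf τ a u s₀ B .ckA LA RA [.cell q q (toBuf B []), .mark] [] LC RC o) := by
  have h1 := ckP_loop (τ := τ) (a := a) (u := u) (s₀ := s₀) (B := B) (q := q) (o := o) hA hC X []
    hX (by simp) rfl ⟨hP.1, by have := hP.1; simp at this ⊢; omega⟩ hP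
  refine (h1.snoc (c'' := cf τ a u s₀ B (.ckP2 q) LA RA [.mark] [] LC RC o) ?_ ?_).snoc ?_ ?_
  · refine sp_cf hA ?_ hC
    constructor <;> simp <;> omega
  · rw [step_cf (hm := rfl)]
    simp [cf, act_stay_same, delta, act]
  · refine sp_cf hA ?_ hC
    constructor <;> simp <;> omega
  · rw [step_cf (hm := rfl)]
    simp [cf, act_stay_same, delta, act]

end rew

section right

theorem delta_capR {α π γ : Sym S τ.Q B} (h : γ ≠ .blank) :
    delta τ a u s₀ B .capR α π γ = ⟨.capR, (α, .stay), (π, .stay), (γ, .right), none⟩ := by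
  cases γ <;> simp_all [delta]

theorem capR_loop {s : ℕ} {LA RA LP RP : List (Sym S τ.Q B)} {o : List S}
    (hA : W s LA RA) (hP : W s LP RP) (R : List (Sym S τ.Q B)) :
    ∀ L : List (Sym S τ.Q B), (∀ z ∈ R, z ≠ .blank) → L.length + R.length < s →
      Run s R.length (cf τ a u s₀ B .capR LA RA LP RP L R o)
        (cf τ a u s₀ B .capR LA RA LP RP (R.reverse ++ L) [] o) := by
  induction R with
  | nil =>
    intro L _ _
    simpa using Run.refl s _
  | cons z R ih =>
    intro L hR hs
    simp only [List.length_cons] at hs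
    have := ih (z :: L) (fun y hy => hR y (by simp [hy])) (by simp; omega)
    refine Run.cons (c' := cf τ a u s₀ B .capR LA RA LP RP (z :: L) R o)
      (sp_cf hA hP ⟨by omega, by simp; omega⟩) ?_ (by simpa using this)
    rw [step_cf _ _ _ _ _ _ _ _ _ (delta_capR (by simpa using hR z (by simp)))]
    simp [cf, act_stay_same, act]

theorem capR_run {s : ℕ} {LA RA LP RP : List (Sym S τ.Q B)} {o : List S}
    (hA : W s LA RA) (hP : W s LP RP) (L R : List (Sym S τ.Q B))
    (hR : ∀ z ∈ R, z ≠ .blank) (hs : L.length + R.length < s) :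
      Run s (R.length + 1) (cf τ a u s₀ B .capR LA RA LP RP L R o)
        (cf τ a u s₀ B .rewA LA RA LP RP (R.reverse ++ L) [] o) := by
  refine (capR_loop hA hP R L hR hs).snoc (sp_cf hA hP ⟨by simp; omega, by simp; omega⟩) ?_
  rw [step_cf (hm := rfl)]
  simp [cf, act_stay_same, delta, act]

theorem delta_ckR {q : τ.Q} {α π γ : Sym S τ.Q B} (h : γ ≠ .blank) :
    delta τ a u s₀ B (.ckR q) α π γ
      = ⟨.ckR q, (α, .stay), (π, .stay), (γ, .right), none⟩ := by
  cases γ <;> simp_all [delta]

theorem ckR_loop {s : ℕ} {q : τ.Q} {LA RA LP RP : List (Sym S τ.Q B)} {o : List S}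
    (hA : W s LA RA) (hP : W s LP RP) (R : List (Sym S τ.Q B)) :
    ∀ L : List (Sym S τ.Q B), (∀ z ∈ R, z ≠ .blank) → L.length + R.length < s →
      Run s R.length (cf τ a u s₀ B (.ckR q) LA RA LP RP L R o)
        (cf τ a u s₀ B (.ckR q) LA RA LP RP (R.reverse ++ L) [] o) := by
  induction R with
  | nil =>
    intro L _ _
    simpa using Run.refl s _
  | cons z R ih =>
    intro L hR hs
    simp only [List.length_cons] at hs
    have := ih (z :: L) (fun y hy => hR y (by simp [hy])) (by simp; omega)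
    refine Run.cons (c' := cf τ a u s₀ B (.ckR q) LA RA LP RP (z :: L) R o)
      (sp_cf hA hP ⟨by omega, by simp; omega⟩) ?_ (by simpa using this)
    rw [step_cf _ _ _ _ _ _ _ _ _ (delta_ckR (by simpa using hR z (by simp)))]
    simp [cf, act_stay_same, act]

theorem ckR_run {s : ℕ} {q : τ.Q} {LA RA LP RP : List (Sym S τ.Q B)} {o : List S}
    (hA : W s LA RA) (hP : W s LP RP) (L R : List (Sym S τ.Q B))
    (hR : ∀ z ∈ R, z ≠ .blank) (hs : L.length + R.length < s) :
      Run s (R.length + 1) (cf τ a u s₀ B (.ckR q) LA RA LP RP L R o)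
        (cf τ a u s₀ B (.ckP q) LA RA LP RP (R.reverse ++ L) [] o) := by
  refine (ckR_loop hA hP R L hR hs).snoc (sp_cf hA hP ⟨by simp; omega, by simp; omega⟩) ?_
  rw [step_cf (hm := rfl)]
  simp [cf, act_stay_same, delta, act]

/-- Copying from tape `C` to tape `A`. -/
theorem copy_loop {s : ℕ} {LP RP L : List (Sym S τ.Q B)} {h : Sym S τ.Q B} {o : List S}
    (hP : W s LP RP) (Y : List S) :
    ∀ (y : S) (LA RA : List (Sym S τ.Q B)), LA.length + Y.length + 1 < s →
      LA.length + RA.length ≤ s → Y.length + L.length + 2 ≤ s →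
      Run s (Y.length + 1)
        (cf τ a u s₀ B .copy LA RA LP RP (Y.map .ltr ++ h :: L) [.ltr y] o)
        (cf τ a u s₀ B .copy ((y :: Y).reverse.map .ltr ++ LA) (RA.drop (Y.length + 1))
          LP RP L [h] o) := by
  induction Y with
  | nil =>
    intro y LA RA h1 h2 h3
    simp only [List.length_nil] at h1 h3
    refine Run.one (sp_cf ⟨by omega, h2⟩ hP ⟨by simp; omega, by simp; omega⟩) ?_
    rw [step_cf (hm := rfl)]
    simp [cf, act_stay_same, delta, act]
  | cons z Y ih =>
    intro y LA RA h1 h2 h3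
    simp only [List.length_cons] at h1 h3
    have := ih z (.ltr y :: LA) RA.tail (by simp; omega) (by simp; omega) (by omega)
    refine Run.cons
      (c' := cf τ a u s₀ B .copy (.ltr y :: LA) RA.tail LP RP (Y.map .ltr ++ h :: L) [.ltr z] o)
      (sp_cf ⟨by omega, h2⟩ hP ⟨by simp; omega, by simp; omega⟩) ?_ ?_
    · rw [step_cf (hm := rfl)]
      simp [cf, act_stay_same, delta, act]
    · simpa using this

/-- The whole checkpoint copy. -/
theorem copy_run {s : ℕ} {LP RP L : List (Sym S τ.Q B)} {h : Sym S τ.Q B} {o : List S}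
    (hh : h = .mark ∨ h = .x) (hP : W s LP RP) (y : S) (Y : List S) (LA RA : List (Sym S τ.Q B))
    (h1 : LA.length + Y.length + 1 < s)
    (h2 : LA.length + RA.length ≤ s) (h3 : Y.length + L.length + 2 < s)
    (h4 : RA.length ≤ Y.length + 1) :
      Run s (Y.length + 3)
        (cf τ a u s₀ B .copy LA RA LP RP ((y :: Y).map .ltr ++ h :: L) [] o)
        (cf τ a u s₀ B .erase ((y :: Y).reverse.map .ltr ++ LA) [] LP RP L [h] o) := by
  have key := copy_loop (τ := τ) (a := a) (u := u) (s₀ := s₀) (h := h) (L := L) (o := o)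
    hP Y y LA RA h1 h2 (by omega)
  rw [List.drop_eq_nil_of_le h4] at key
  have := Run.cons (s := s)
    (c := cf τ a u s₀ B .copy LA RA LP RP ((y :: Y).map .ltr ++ h :: L) [] o)
    (sp_cf ⟨by omega, h2⟩ hP ⟨by simp; omega, by simp; omega⟩) (by
      rw [step_cf (hm := rfl)]
      simp [cf, delta, act]) key
  refine this.snoc (sp_cf ⟨by simp; omega, by simp; omega⟩ hP ⟨by omega, by simp; omega⟩) ?_
  rcases hh with rfl | rfl
  · rw [step_cf (hm := rfl)]
    simp [cf, delta, act]
  · rw [step_cf (hm := rfl)]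
    simp [cf, delta, act]

end right

end Pool.Agent.H584R2.Dg
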