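import Pool.Agent.H584R2.Dg.Defs

/-!
# Tapes given by two lists, and multi-step runs
-/

namespace Pool.Agent.H584R2.Dg

variable {Γ : Type}

/-- The tape with the cells `L` (reversed) to the left of the head, the cells `R` from the head on,
and blanks afterwards. -/
def rep (b : Γ) (L R : List Γ) : Tape Γ := ⟨fun i => (L.reverse ++ R).getD i b, L.length⟩

/-- Writing `x` and moving. -/
def act (b : Γ) (x : Γ) : Dir → List Γ → List Γ → Tape Γ
  | .right, L, R => rep b (x :: L) R.tail
  | .stay, L, R => rep b L (x :: R.tail)
  | .left, [], R => rep b [] (x :: R.tail)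
  | .left, a :: L, R => rep b L (a :: x :: R.tail)

theorem rep_read (b : Γ) (L R : List Γ) :
    (rep b L R).cell (rep b L R).head = R.headD b := by
  simp only [rep]
  cases R with
  | nil => simp
  | cons x R => simp [List.getD_eq_getElem?_getD]

theorem update_getD (b x : Γ) (L R : List Γ) :
    Function.update (fun i => (L.reverse ++ R).getD i b) L.length x
      = fun i => (L.reverse ++ x :: R.tail).getD i b := by
  funext i
  by_cases h : i = L.length
  · subst h
    simp [List.getD_eq_getElem?_getD]
  · rw [Function.update_of_ne h]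
    rcases lt_or_gt_of_ne h with h1 | h1
    · simp only [List.getD_eq_getElem?_getD]
      rw [List.getElem?_append_left (by simpa using h1),
        List.getElem?_append_left (by simpa using h1)]
    · simp only [List.getD_eq_getElem?_getD]
      rw [List.getElem?_append_right (by simpa using h1.le),
        List.getElem?_append_right (by simpa using h1.le)]
      simp only [List.length_reverse]
      obtain ⟨m, hm⟩ : ∃ m, i - L.length = m + 1 := ⟨i - L.length - 1, by omega⟩
      rw [hm]
      cases R with
      | nil => simp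
      | cons y R => simp

theorem rep_act (b : Γ) (x : Γ) (d : Dir) (L R : List Γ) :
    (⟨Function.update (rep b L R).cell (rep b L R).head x, d.move (rep b L R).head⟩ : Tape Γ)
      = act b x d L R := by
  have h := update_getD b x L R
  cases d with
  | right =>
    simp only [rep, act, Dir.move]
    rw [h]
    simp
  | stay =>
    simp only [rep, act, Dir.move]
    rw [h]
  | left =>
    cases L with
    | nil =>
      simp only [rep, act, Dir.move]
      rw [h]
      simp
    | cons a L =>
      simp only [rep, act, Dir.move]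
      rw [h]
      simp

theorem rep_trail (b : Γ) (L R : List Γ) : rep b L (R ++ [b]) = rep b L R := by
  simp only [rep]
  congr 1
  funext i
  rw [← List.append_assoc]
  generalize L.reverse ++ R = Z
  simp only [List.getD_eq_getElem?_getD]
  rcases lt_trichotomy i Z.length with h | h | h
  · rw [List.getElem?_append_left h]
  · subst h; simp
  · rw [List.getElem?_append_right h.le]
    obtain ⟨m, hm⟩ : ∃ m, i - Z.length = m + 1 := ⟨i - Z.length - 1, by omega⟩
    rw [hm]
    simp [List.getElem?_eq_none h.le]

@[simp] theorem rep_blank (b : Γ) (L : List Γ) : rep b L [b] = rep b L [] := rep_trail b L []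

@[simp] theorem rep_one_blank (b a : Γ) (L : List Γ) : rep b L [a, b] = rep b L [a] :=
  rep_trail b L [a]

/-- The tape lives in the first `s` cells. -/
def Within (b : Γ) (s : ℕ) (t : Tape Γ) : Prop := t.head < s ∧ ∀ j, s ≤ j → t.cell j = b

theorem within_rep {b : Γ} {L R : List Γ} {s : ℕ} (h1 : L.length < s)
    (h2 : L.length + R.length ≤ s) : Within b s (rep b L R) := by
  refine ⟨h1, fun j hj => ?_⟩
  simp only [rep, List.getD_eq_getElem?_getD]
  rw [List.getElem?_eq_none (by simp; omega)]
  rfl

theorem Within.mono {b : Γ} {s s' : ℕ} {t : Tape Γ} (h : Within b s t) (hs : s ≤ s') :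
    Within b s' t := ⟨h.1.trans_le hs, fun j hj => h.2 j (hs.trans hj)⟩

/-! ## Runs -/

variable {k : ℕ} {S : Type} {M : Machine k S}

/-- All tapes live in the first `s` cells. -/
def Sp (s : ℕ) (c : Cfg M) : Prop := ∀ i, Within M.blank s (c.tape i)

theorem Sp.mono {s s' : ℕ} {c : Cfg M} (h : Sp s c) (hs : s ≤ s') : Sp s' c :=
  fun i => (h i).mono hs

/-- `M` goes from `c` to `c'` in `t` steps, all configurations before `c'` being of size at most
`s`. -/
def Run (s : ℕ) (t : ℕ) (c c' : Cfg M) : Prop :=
  M.step^[t] c = c' ∧ ∀ i < t, Sp s (M.step^[i] c)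

theorem Run.refl (s : ℕ) (c : Cfg M) : Run s 0 c c := ⟨rfl, fun i hi => by omega⟩

theorem Run.trans {s t t' : ℕ} {c c' c'' : Cfg M} (h : Run s t c c') (h' : Run s t' c' c'') :
    Run s (t + t') c c'' := by
  refine ⟨?_, fun i hi => ?_⟩
  · rw [add_comm, Function.iterate_add_apply, h.1, h'.1]
  · by_cases hit : i < t
    · exact h.2 i hit
    · obtain ⟨m, rfl⟩ : ∃ m, i = m + t := ⟨i - t, by omega⟩
      rw [Function.iterate_add_apply, h.1]
      exact h'.2 m (by omega)

theorem Run.mono {s s' t : ℕ} {c c' : Cfg M} (h : Run s t c c') (hs : s ≤ s') :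
    Run s' t c c' := ⟨h.1, fun i hi => (h.2 i hi).mono hs⟩

theorem Run.one {s : ℕ} {c c' : Cfg M} (h : Sp s c) (hstep : M.step c = c') : Run s 1 c c' := by
  refine ⟨by simpa using hstep, fun i hi => ?_⟩
  obtain rfl : i = 0 := by omega
  simpa using h

theorem Run.cons {s t : ℕ} {c c' c'' : Cfg M} (h : Sp s c) (hstep : M.step c = c')
    (h' : Run s t c' c'') : Run s (t + 1) c c'' := by
  rw [add_comm]
  exact (Run.one h hstep).trans h'

theorem Run.snoc {s t : ℕ} {c c' c'' : Cfg M} (h : Run s t c c') (h' : Sp s c')
    (hstep : M.step c' = c'') : Run s (t + 1) c c'' := h.trans (Run.one h' hstep)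

end Pool.Agent.H584R2.Dg
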